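import Pool.Agent.Q47.TB.Defs
import Pool.Agent.Q47.MM.Cone

/-!
# The weight inequalities put the adjoint exponents into the Newton polytope
-/

set_option autoImplicit false

namespace Q47.TB

open MvPolynomial

variable {ι : Type*} [Fintype ι] {n : ℕ}

theorem IsSmoothFan.empty_mem {u : ι → Fin n → ℤ} {S : Set (Set ι)} (hS : IsSmoothFan u S) :
    ∅ ∈ S := by
  obtain ⟨a, ⟨ha, -⟩, -⟩ := hS.rep 0
  exact hS.face _ ha _ (Set.empty_subset _)

/-- Integral points in the convex hull. -/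
theorem int_of_hull {J : Type*} (q : J → Fin n → ℤ)
    (h : (0 : Fin n → ℝ) ∈ convexHull ℝ (Set.range fun j => fun k => (q j k : ℝ))) :
    ∃ (r : ℕ) (g : Fin r → J) (b : Fin r → ℕ), 1 ≤ ∑ k, b k ∧ ∀ l, ∑ k, (b k : ℤ) * q (g k) l = 0 := by
  classical
  rw [mem_convexHull_iff_exists_fintype] at h
  obtain ⟨κ, hκ, w, z, hw0, hw1, hz, hwz⟩ := h
  let e := Fintype.equivFin κ
  choose g hg using hz
  let x : Fin (Fintype.card κ) → ℝ := fun k => w (e.symm k)
  let rows : (Fin (Fintype.card κ)) ⊕ (Fin n ⊕ Fin n) → Fin (Fintype.card κ) → ℤ :=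
    Sum.elim (fun j k => if k = j then 1 else 0)
      (Sum.elim (fun l k => q (g (e.symm k)) l) (fun l k => - q (g (e.symm k)) l))
  have hzero : ∀ l, ∑ k, (q (g (e.symm k)) l : ℝ) * x k = 0 := by
    intro l
    have h1 := congrFun hwz l
    rw [Finset.sum_apply] at h1
    rw [← e.symm.sum_comp] at h1
    rw [Pi.zero_apply] at h1
    rw [← h1]
    refine Finset.sum_congr rfl fun k _ => ?_
    rw [← hg]
    simp only [x, Pi.smul_apply, smul_eq_mul]
    ring
  have hx1 : ∑ k, x k = 1 := by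
    rw [← hw1]
    exact e.symm.sum_comp w
  have hrows : ∀ j, 0 ≤ ∑ k, (rows j k : ℝ) * x k := by
    rintro (j | l | l)
    · simp only [rows, Sum.elim_inl]
      push_cast
      simp only [ite_mul, one_mul, zero_mul, Finset.sum_ite_eq', Finset.mem_univ, if_true]
      exact hw0 _
    · simp only [rows, Sum.elim_inl, Sum.elim_inr]
      exact (hzero l).ge
    · simp only [rows, Sum.elim_inr]
      push_cast
      simp only [neg_mul, Finset.sum_neg_distrib]
      rw [hzero l, neg_zero]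
  obtain ⟨P, hP, c, b, hc, hb, hbr⟩ := Q47.MM.cone_decomp rows x hrows
  obtain ⟨k0, hk0⟩ : ∃ k, 0 < x k := by
    by_contra hcon
    push Not at hcon
    have : ∑ k, x k ≤ 0 := Finset.sum_nonpos fun k _ => hcon k
    linarith
  have hne : Nonempty P := by
    by_contra hcon
    rw [not_nonempty_iff] at hcon
    have := hb k0
    rw [Finset.univ_eq_empty, Finset.sum_empty] at this
    linarith
  obtain ⟨p⟩ := hne
  have hpos : ∀ k, 0 ≤ b p k := by
    intro k
    have := (hbr p (Sum.inl k)).1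
    simpa [rows] using this
  have hstrict : 0 < b p k0 := by
    have := (hbr p (Sum.inl k0)).2 (by
      simp only [rows, Sum.elim_inl]
      push_cast
      simpa using hk0)
    simpa [rows] using this
  refine ⟨Fintype.card κ, fun k => g (e.symm k), fun k => (b p k).toNat, ?_, ?_⟩
  · have h1 : (b p k0).toNat ≤ ∑ k, (b p k).toNat :=
      Finset.single_le_sum (f := fun k => (b p k).toNat) (fun k _ => Nat.zero_le _)
        (Finset.mem_univ k0)
    have h2 : 1 ≤ (b p k0).toNat := by omega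
    exact h2.trans h1
  · intro l
    have h1 := (hbr p (Sum.inr (Sum.inl l))).1
    have h2 := (hbr p (Sum.inr (Sum.inr l))).1
    simp only [rows, Sum.elim_inl, Sum.elim_inr, neg_mul, Finset.sum_neg_distrib] at h1 h2
    have h3 : ∑ k, ((b p k).toNat : ℤ) * q (g (e.symm k)) l
        = ∑ k, q (g (e.symm k)) l * b p k :=
      Finset.sum_congr rfl fun k _ => by rw [Int.toNat_of_nonneg (hpos k), mul_comm]
    rw [h3]
    omega

/-- If `0` is not in the convex hull, then some integral functional is positive. -/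
theorem sep_of_not_hull {J : Type*} [Finite J] (q : J → Fin n → ℤ) [Nonempty J]
    (h : (0 : Fin n → ℝ) ∉ convexHull ℝ (Set.range fun j => fun k => (q j k : ℝ))) :
    ∃ w : Fin n → ℤ, ∀ j, 0 < ∑ k, q j k * w k := by
  classical
  have hfin : (Set.range fun j => fun k => (q j k : ℝ)).Finite := Set.finite_range _
  obtain ⟨f, t, hf0, hft⟩ := geometric_hahn_banach_point_closed
    (convex_convexHull ℝ _) (hfin.isClosed_convexHull (𝕜 := ℝ)) h
  rw [map_zero] at hf0
  let x : Fin n → ℝ := fun k => f (Pi.single k 1)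
  have hfx : ∀ y : Fin n → ℝ, f y = ∑ k, y k * x k := by
    intro y
    have h1 := LinearMap.pi_apply_eq_sum_univ (f : (Fin n → ℝ) →ₗ[ℝ] ℝ) y
    have h2 : f y = (f : (Fin n → ℝ) →ₗ[ℝ] ℝ) y := rfl
    rw [h2, h1]
    refine Finset.sum_congr rfl fun k _ => ?_
    rw [smul_eq_mul]
    congr 1
    change f (fun j => if k = j then 1 else 0) = f (Pi.single k 1)
    congr 1
    ext j
    rw [Pi.single_apply]
    simp only [eq_comm]
  have hx : ∀ j, 0 < ∑ k, (q j k : ℝ) * x k := by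
    intro j
    rw [← hfx]
    exact hf0.trans (hft _ (subset_convexHull ℝ _ ⟨j, rfl⟩))
  obtain ⟨P, hP, c, b, hc, hb, hbr⟩ := Q47.MM.cone_decomp q x fun j => (hx j).le
  have hne : Nonempty P := by
    by_contra hcon
    rw [not_nonempty_iff] at hcon
    have h1 : ∀ k, x k = 0 := fun k => by
      rw [← hb k, Finset.univ_eq_empty, Finset.sum_empty]
    obtain ⟨j⟩ := (inferInstance : Nonempty J)
    have h2 := hx j
    simp [h1] at h2
  obtain ⟨p⟩ := hne
  exact ⟨b p, fun j => (hbr p j).2 (hx j)⟩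

/-- The weight inequalities put the adjoint exponents into the Newton polytope. -/
theorem exists_comb {u : ι → Fin n → ℤ} {S : Set (Set ι)} (hS : IsSmoothFan u S)
    (T : Finset (ι →₀ ℕ)) {d : ι → ℤ} (hT : ∀ α ∈ T, LinEquiv u (fun i => (α i : ℤ)) d) {m : ℕ}
    {β : ι → ℕ} (hβ : LinEquiv u (fun i => (β i : ℤ)) (fun i => d i - m))
    (hw : ∀ a : ι → ℕ, {i | a i ≠ 0} ∈ S → ∃ α ∈ T, ∑ i, a i * α i ≤ m * ∑ i, a i) :
    ∃ b : (ι →₀ ℕ) → ℕ, 1 ≤ ∑ α ∈ T, b α ∧
      ∀ i, ∑ α ∈ T, b α * α i = (∑ α ∈ T, b α) * (m + β i) := by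
  classical
  choose mα hmα using fun α : T => hT α α.2
  obtain ⟨mβ, hmβ⟩ := hβ
  let q : T → Fin n → ℤ := fun α k => mα α k - mβ k
  have hq : ∀ (α : T) (i : ι), ((α : ι →₀ ℕ) i : ℤ) - m - β i = ∑ k, q α k * u i k := by
    intro α i
    simp only [q, sub_mul, Finset.sum_sub_distrib]
    have h1 := hmα α i
    have h2 := hmβ i
    linarith
  have hTne : T.Nonempty := by
    obtain ⟨α, hα, -⟩ := hw (fun _ => 0) (by simpa using hS.empty_mem)
    exact ⟨α, hα⟩
  have : Nonempty T := ⟨⟨_, hTne.choose_spec⟩⟩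
  have hhull : (0 : Fin n → ℝ) ∈ convexHull ℝ (Set.range fun j => fun k => (q j k : ℝ)) := by
    by_contra hcon
    obtain ⟨w, hwpos⟩ := sep_of_not_hull q hcon
    obtain ⟨a, ⟨haS, ha⟩, -⟩ := hS.rep w
    obtain ⟨α, hα, hle⟩ := hw a haS
    have h1 := hwpos ⟨α, hα⟩
    have h2 : ∑ k, q ⟨α, hα⟩ k * w k = ∑ i, (a i : ℤ) * ((α i : ℤ) - m - β i) := by
      calc ∑ k, q ⟨α, hα⟩ k * w k = ∑ k, ∑ i, (a i : ℤ) * (q ⟨α, hα⟩ k * u i k) := by
            refine Finset.sum_congr rfl fun k _ => ?_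
            rw [← ha k, Finset.mul_sum]
            exact Finset.sum_congr rfl fun i _ => by ring
        _ = ∑ i, (a i : ℤ) * ∑ k, q ⟨α, hα⟩ k * u i k := by
            rw [Finset.sum_comm]
            exact Finset.sum_congr rfl fun i _ => (Finset.mul_sum _ _ _).symm
        _ = _ := Finset.sum_congr rfl fun i _ => by rw [← hq ⟨α, hα⟩ i]
    rw [h2] at h1
    have h3 : ∑ i, (a i : ℤ) * ((α i : ℤ) - m - β i)
        = ((∑ i, a i * α i : ℕ) : ℤ) - ((m * ∑ i, a i : ℕ) : ℤ) - ((∑ i, a i * β i : ℕ) : ℤ) := by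
      push_cast
      rw [Finset.mul_sum, ← Finset.sum_sub_distrib, ← Finset.sum_sub_distrib]
      exact Finset.sum_congr rfl fun i _ => by ring
    rw [h3] at h1
    have h4 : ((∑ i, a i * α i : ℕ) : ℤ) ≤ ((m * ∑ i, a i : ℕ) : ℤ) := by exact_mod_cast hle
    have h5 : (0 : ℤ) ≤ ((∑ i, a i * β i : ℕ) : ℤ) := Int.natCast_nonneg _
    linarith
  obtain ⟨r, g, b, hb1, hb⟩ := int_of_hull q hhull
  have key : ∀ F : (ι →₀ ℕ) → ℕ, ∑ α ∈ T, (∑ k, if (g k : ι →₀ ℕ) = α then b k else 0) * F α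
      = ∑ k, b k * F (g k) := by
    intro F
    simp only [Finset.sum_mul, ite_mul, zero_mul]
    rw [Finset.sum_comm]
    refine Finset.sum_congr rfl fun k _ => ?_
    rw [Finset.sum_ite_eq, if_pos (g k).2]
  have key1 : ∑ α ∈ T, (∑ k, if (g k : ι →₀ ℕ) = α then b k else 0) = ∑ k, b k := by
    have := key fun _ => 1
    simpa using this
  refine ⟨fun α => ∑ k, if (g k : ι →₀ ℕ) = α then b k else 0, ?_, fun i => ?_⟩
  · rw [key1]
    exact hb1
  · rw [key fun α => α i, key1]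
    have h1 : ∑ k, (b k : ℤ) * (((g k : ι →₀ ℕ) i : ℤ) - m - β i) = 0 := by
      calc ∑ k, (b k : ℤ) * (((g k : ι →₀ ℕ) i : ℤ) - m - β i)
          = ∑ k, (b k : ℤ) * ∑ l, q (g k) l * u i l :=
            Finset.sum_congr rfl fun k _ => by rw [hq]
        _ = ∑ l, (∑ k, (b k : ℤ) * q (g k) l) * u i l := by
            simp only [Finset.mul_sum, Finset.sum_mul]
            rw [Finset.sum_comm]
            exact Finset.sum_congr rfl fun _ _ => Finset.sum_congr rfl fun _ _ => by ring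
        _ = 0 := by simp [hb]
    have h2 : ((∑ k, b k * (g k : ι →₀ ℕ) i : ℕ) : ℤ) = (((∑ k, b k) * (m + β i) : ℕ) : ℤ) := by
      push_cast
      rw [Finset.sum_mul, ← sub_eq_zero, ← Finset.sum_sub_distrib, ← h1]
      exact Finset.sum_congr rfl fun k _ => by ring
    exact_mod_cast h2

end Q47.TB
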