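import Pool.Agent.Q47.TB.Fixed

/-!
# Pseudo-effective classes on toric bundles over torus quotients
-/

set_option autoImplicit false

namespace Q47.TB

open Pool.Agent.W594.SYZ2 Pool.Agent.W594.SYZ2.TQ Pool.Agent.TH735.AQ MvPolynomial Q47.EB Q47.KN
open Q47.MM (nef_of_section Inv inv_of_chern roots exists_tests Refls nef_of_roots cone_decomp)

variable {V : Type*} [NormedAddCommGroup V] [NormedSpace ℂ V] {Γ : Subgroup (V ≃ᵃ[ℂ] V)}
  {ι : Type*} [Fintype ι] {n : ℕ}

/-- The real class `(δ; H)` on the toric bundle is a sum of classes of effective divisors, with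
coefficients `≥ 0`, and of the pullback of a nef class of the base: `M_k` has the Chern form
`HM_k`, and `O_Y(d_k; M_k)` has a nonzero section. Classes of divisors on the fibre are considered
modulo linear equivalence (over the reals). -/
def IsEff (u : ι → Fin n → ℤ) (c : ι → LineBundle Γ) (δ : ι → ℝ) (H : V → V → ℂ) : Prop :=
  ∃ (κ : Type) (_ : Fintype κ) (r : κ → ℝ) (d : κ → ι → ℤ) (M : κ → LineBundle Γ)
    (HM : κ → V → V → ℂ) (N : V → V → ℂ) (q : Fin n → ℝ),
    (∀ k, 0 ≤ r k) ∧ (∀ k, IsChernForm (M k) (HM k)) ∧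
    (∀ k, ∃ G, IsSection u c (d k) (M k).e G ∧ ∃ v, G v ≠ 0) ∧ IsNefForm N ∧
    (∀ i, δ i = ∑ k, r k * d k i + ∑ l, q l * u i l) ∧
    ∀ v w, H v w = ∑ k, r k * HM k v w + N v w

/-- The real class `(δ; H)` is pseudo-effective: a limit of sums of effective and nef classes. -/
def IsPseff (u : ι → Fin n → ℤ) (c : ι → LineBundle Γ) (δ : ι → ℝ) (H : V → V → ℂ) : Prop :=
  ∃ (δn : ℕ → ι → ℝ) (Hn : ℕ → V → V → ℂ), (∀ j, IsEff u c (δn j) (Hn j)) ∧
    (∀ i, Filter.Tendsto (fun j => δn j i) Filter.atTop (nhds (δ i))) ∧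
    ∀ v w, Filter.Tendsto (fun j => Hn j v w) Filter.atTop (nhds (H v w))

/-- The coefficients of sections are sections. -/
theorem coeff_section {u : ι → Fin n → ℤ} {c : ι → LineBundle Γ} {d : ι → ℤ} {M : LineBundle Γ}
    {G : V → MvPolynomial ι ℂ} (hG : IsSection u c d M.e G) (α : ι →₀ ℕ) :
    (tw M c 1 fun i => α i).IsSection fun v => coeff α (G v) := by
  refine ⟨hG.holo α, fun γ v => ?_⟩
  have h1 := coeff_of_eval (t := fun i => (c i).e γ v) (p := G ((γ : V ≃ᵃ[ℂ] V) v)) (q := G v)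
    (a := 1) (b := M.e γ v) (fun x => by rw [mul_one]; exact hG.eq γ v x) α
  rw [mul_one] at h1
  change coeff α (G ((γ : V ≃ᵃ[ℂ] V) v))
    = M.e γ v ^ 1 * (∏ i, (c i).e γ v ^ (1 * α i))⁻¹ * coeff α (G v)
  have h2 : (∏ i, (c i).e γ v ^ α i) ≠ 0 :=
    Finset.prod_ne_zero_iff.2 fun i _ => pow_ne_zero _ ((c i).ne_zero γ v)
  simp only [one_mul, pow_one]
  field_simp
  linear_combination h1

/-- The class of an effective divisor. -/
theorem nef_of_isSection [FiniteDimensional ℂ V] (hΓ : IsTorusQuotient Γ) {u : ι → Fin n → ℤ}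
    {c : ι → LineBundle Γ} {Hc : ι → V → V → ℂ} (hc : ∀ i, IsChernForm (c i) (Hc i)) {d : ι → ℤ}
    {M : LineBundle Γ} {HM : V → V → ℂ} (hM : IsChernForm M HM)
    {G : V → MvPolynomial ι ℂ} (hG : IsSection u c d M.e G) (hG0 : ∃ v, G v ≠ 0) :
    ∃ α : ι → ℕ, LinEquiv u (fun i => (α i : ℤ)) d ∧
      IsNefForm fun v w => HM v w - ∑ i, (α i : ℂ) * Hc i v w := by
  obtain ⟨v, hv⟩ := hG0
  obtain ⟨α, hα⟩ := MvPolynomial.support_nonempty.2 hv
  refine ⟨fun i => α i, hG.deg v α hα, ?_⟩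
  have h1 := nef_of_section hΓ (chern_tw hM hc 1 fun i => α i) (coeff_section hG α)
    ⟨v, mem_support_iff.1 hα⟩
  intro w
  have h2 := h1 w
  simpa using h2

theorem relation {u : ι → Fin n → ℤ} {S : Set (Set ι)} (hS : IsSmoothFan u S) :
    ∃ a : ι → ℕ, (∀ i, 1 ≤ a i) ∧ ∀ k, ∑ i, (a i : ℤ) * u i k = 0 := by
  obtain ⟨b, ⟨-, hb⟩, -⟩ := hS.rep fun k => -∑ i, u i k
  refine ⟨fun i => b i + 1, fun i => Nat.succ_pos _, fun k => ?_⟩
  have h1 := hb k
  push_cast
  simp only [add_mul, one_mul, Finset.sum_add_distrib]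
  linarith

omit [NormedAddCommGroup V] [NormedSpace ℂ V] in
theorem re_sub_sum (a : ℂ) (b : ι → ℝ) (z : ι → ℂ) :
    (a - ∑ i, (b i : ℂ) * z i).re = a.re - ∑ i, b i * (z i).re := by
  rw [Complex.sub_re, Complex.re_sum]
  simp only [Complex.re_ofReal_mul]

/-- The classes which are pseudo-effective. -/
theorem exists_real [FiniteDimensional ℂ V] (hΓ : IsTorusQuotient Γ) {u : ι → Fin n → ℤ}
    {S : Set (Set ι)} (hS : IsSmoothFan u S) {c : ι → LineBundle Γ} {Hc : ι → V → V → ℂ}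
    (hc : ∀ i, IsChernForm (c i) (Hc i)) {δ : ι → ℝ} {H : V → V → ℂ} (h : IsPseff u c δ H) :
    ∃ (β : ι → ℝ) (q : Fin n → ℝ), (∀ i, 0 ≤ β i) ∧ (∀ i, β i = δ i + ∑ k, q k * u i k) ∧
      IsNefForm fun v w => H v w - ∑ i, (β i : ℂ) * Hc i v w := by
  obtain ⟨δn, Hn, hE, hδ, hH⟩ := h
  have key : ∀ j, ∃ (β : ι → ℝ) (q : Fin n → ℝ), (∀ i, 0 ≤ β i) ∧
      (∀ i, β i = δn j i + ∑ k, q k * u i k) ∧
      IsNefForm fun v w => Hn j v w - ∑ i, (β i : ℂ) * Hc i v w := by
    intro j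
    obtain ⟨κ, _, r, d, M, HM, N, q, hr, hM, hG, hN, hδj, hHj⟩ := hE j
    choose G hG hG0 using hG
    choose α hα hnef using fun k => nef_of_isSection hΓ hc (hM k) (hG k) (hG0 k)
    choose p hp using hα
    refine ⟨fun i => ∑ k, r k * α k i, fun l => -q l + ∑ k, r k * p k l, fun i => ?_, fun i => ?_,
      fun v => ?_⟩
    · exact Finset.sum_nonneg fun k _ => mul_nonneg (hr k) (Nat.cast_nonneg _)
    · rw [hδj]
      have h1 : ∀ k, (α k i : ℝ) = d k i + ∑ l, (p k l : ℝ) * u i l := fun k => by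
        exact_mod_cast hp k i
      simp only [h1, mul_add, Finset.sum_add_distrib, add_mul, Finset.sum_mul, Finset.mul_sum,
        neg_mul, Finset.sum_neg_distrib]
      have h2 : ∑ k, ∑ l, r k * ((p k l : ℝ) * u i l) = ∑ l, ∑ k, r k * (p k l : ℝ) * u i l := by
        rw [Finset.sum_comm]
        exact Finset.sum_congr rfl fun l _ => Finset.sum_congr rfl fun k _ => by ring
      rw [h2]
      ring
    · have h1 : 0 ≤ (N v v).re + ∑ k, r k * (HM k v v - ∑ i, (α k i : ℂ) * Hc i v v).re :=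
        add_nonneg (hN v) (Finset.sum_nonneg fun k _ => mul_nonneg (hr k) (hnef k v))
      refine h1.trans (le_of_eq ?_)
      have h2 : ∀ k, (HM k v v - ∑ i, (α k i : ℂ) * Hc i v v).re
          = (HM k v v).re - ∑ i, (α k i : ℝ) * (Hc i v v).re := fun k => by
        have := re_sub_sum (HM k v v) (fun i => (α k i : ℝ)) fun i => Hc i v v
        simp
      have h3 := re_sub_sum (Hn j v v) (fun i => ∑ k, r k * (α k i : ℝ)) fun i => Hc i v v
      rw [h3, hHj, Complex.add_re, Complex.re_sum]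
      simp only [h2, Complex.re_ofReal_mul, mul_sub, Finset.sum_sub_distrib, Finset.mul_sum,
        Finset.sum_mul]
      rw [Finset.sum_comm]
      have h4 : ∀ i k, r k * ((α k i : ℝ) * (Hc i v v).re) = r k * (α k i : ℝ) * (Hc i v v).re :=
        fun i k => by ring
      simp only [h4]
      ring
  choose β q hβ0 hβ hnef using key
  obtain ⟨a, ha1, ha⟩ := relation hS
  have hsum : ∀ j, ∑ i, (a i : ℝ) * β j i = ∑ i, (a i : ℝ) * δn j i := by
    intro j
    have h1 : ∑ i, (a i : ℝ) * ∑ k, q j k * u i k = 0 := by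
      have h2 : ∀ k, ∑ i, (a i : ℝ) * (u i k : ℝ) = 0 := fun k => by exact_mod_cast ha k
      have h3 : ∑ i, (a i : ℝ) * ∑ k, q j k * u i k = ∑ k, q j k * ∑ i, (a i : ℝ) * u i k := by
        simp only [Finset.mul_sum]
        rw [Finset.sum_comm]
        exact Finset.sum_congr rfl fun l _ => Finset.sum_congr rfl fun k _ => by ring
      rw [h3]
      exact Finset.sum_eq_zero fun k _ => by rw [h2, mul_zero]
    simp only [hβ j, mul_add, Finset.sum_add_distrib, h1, add_zero]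
  have hbd : Bornology.IsBounded (Set.range β) := by
    have hlim : Filter.Tendsto (fun j => ∑ i, (a i : ℝ) * δn j i) Filter.atTop
        (nhds (∑ i, (a i : ℝ) * δ i)) := tendsto_finsetSum _ fun i _ => (hδ i).const_mul _
    obtain ⟨R, hR⟩ := hlim.bddAbove_range
    rw [isBounded_iff_forall_norm_le]
    refine ⟨R, ?_⟩
    rintro _ ⟨j, rfl⟩
    have hj : ∑ i, (a i : ℝ) * β j i ≤ R := by rw [hsum]; exact hR ⟨j, rfl⟩
    have hR0 : 0 ≤ R := le_trans (Finset.sum_nonneg fun i _ =>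
      mul_nonneg (Nat.cast_nonneg _) (hβ0 j i)) hj
    rw [pi_norm_le_iff_of_nonneg hR0]
    intro i
    rw [Real.norm_of_nonneg (hβ0 j i)]
    have h1 : (1 : ℝ) ≤ a i := by exact_mod_cast ha1 i
    have h2 : (a i : ℝ) * β j i ≤ ∑ i, (a i : ℝ) * β j i :=
      Finset.single_le_sum (f := fun i => (a i : ℝ) * β j i)
        (fun i _ => mul_nonneg (Nat.cast_nonneg _) (hβ0 j i)) (Finset.mem_univ i)
    nlinarith [hβ0 j i]
  obtain ⟨β₀, -, φ, hφ, hlim⟩ := tendsto_subseq_of_bounded hbd (x := β) fun j => ⟨j, rfl⟩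
  have hlim' : ∀ i, Filter.Tendsto (fun j => β (φ j) i) Filter.atTop (nhds (β₀ i)) :=
    fun i => (tendsto_pi_nhds.1 hlim) i
  have hδ' : ∀ i, Filter.Tendsto (fun j => δn (φ j) i) Filter.atTop (nhds (δ i)) :=
    fun i => (hδ i).comp hφ.tendsto_atTop
  -- the linear map
  let A : (Fin n → ℝ) →ₗ[ℝ] (ι → ℝ) :=
    { toFun := fun q i => ∑ k, q k * u i k
      map_add' := fun q q' => by
        ext i
        simp only [Pi.add_apply, add_mul, Finset.sum_add_distrib]
      map_smul' := fun t q => by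
        ext i
        simp only [Pi.smul_apply, smul_eq_mul, RingHom.id_apply, Finset.mul_sum, mul_assoc] }
  have hcl : IsClosed (LinearMap.range A : Set (ι → ℝ)) := Submodule.closed_of_finiteDimensional _
  have hmem : (fun i => β₀ i - δ i) ∈ LinearMap.range A := by
    refine hcl.mem_of_tendsto (f := fun j => fun i => β (φ j) i - δn (φ j) i)
      (tendsto_pi_nhds.2 fun i => (hlim' i).sub (hδ' i)) (Filter.Eventually.of_forall fun j => ?_)
    refine ⟨q (φ j), funext fun i => ?_⟩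
    change ∑ k, q (φ j) k * u i k = _
    rw [hβ (φ j) i]
    ring
  obtain ⟨q₀, hq₀⟩ := hmem
  refine ⟨β₀, q₀, fun i => ge_of_tendsto' (hlim' i) fun j => hβ0 _ _, fun i => ?_, fun v => ?_⟩
  · have h1 : ∑ k, q₀ k * u i k = β₀ i - δ i := congrFun hq₀ i
    linarith
  · have h1 : Filter.Tendsto (fun j => (Hn (φ j) v v - ∑ i, (β (φ j) i : ℂ) * Hc i v v).re)
        Filter.atTop (nhds (H v v - ∑ i, (β₀ i : ℂ) * Hc i v v).re) := by
      refine (Complex.continuous_re.tendsto _).comp ?_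
      refine ((hH v v).comp hφ.tendsto_atTop).sub (tendsto_finsetSum _ fun i _ => ?_)
      exact ((Complex.continuous_ofReal.tendsto _).comp (hlim' i)).mul_const _
    exact ge_of_tendsto' h1 fun j => hnef _ v

end Q47.TB
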