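import Pool.Agent.Q47.TB.Main

/-!
# Normal crossing divisors on toric bundles
-/

set_option autoImplicit false

namespace Q47.TB

open Pool.Agent.W594.SYZ2 Pool.Agent.W594.SYZ2.TQ Pool.Agent.TH735.AQ MvPolynomial Q47.EB Q47.KN

variable {V : Type*} [NormedAddCommGroup V] [NormedSpace ℂ V]
  {Γ : Subgroup (V ≃ᵃ[ℂ] V)} {ι : Type*} [Fintype ι] {n : ℕ}

/-- A class contains finitely many monomials. -/
theorem finite_class {u : ι → Fin n → ℤ} {S : Set (Set ι)} (hS : IsSmoothFan u S) (d : ι → ℤ) :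
    {α : ι →₀ ℕ | LinEquiv u (fun i => (α i : ℤ)) d}.Finite := by
  classical
  choose a ha _ using fun w : Fin n → ℤ => hS.rep w
  -- bounds of the coordinates of `m`
  let B : (Fin n → ℤ) → ℤ := fun w => ∑ i, (a w i : ℤ) * d i
  have hb : ∀ (m w : Fin n → ℤ), (∀ i, 0 ≤ d i + ∑ k, m k * u i k) →
      -B w ≤ ∑ k, m k * w k := by
    intro m w hm
    have h1 : ∑ k, m k * w k = ∑ i, (a w i : ℤ) * ∑ k, m k * u i k := by
      calc ∑ k, m k * w k = ∑ k, ∑ i, (a w i : ℤ) * (m k * u i k) := by
            refine Finset.sum_congr rfl fun k _ => ?_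
            rw [← (ha w).2 k, Finset.mul_sum]
            exact Finset.sum_congr rfl fun i _ => by ring
        _ = _ := by
            rw [Finset.sum_comm]
            exact Finset.sum_congr rfl fun i _ => (Finset.mul_sum _ _ _).symm
    have h2 : 0 ≤ ∑ i, (a w i : ℤ) * (d i + ∑ k, m k * u i k) :=
      Finset.sum_nonneg fun i _ => mul_nonneg (Int.natCast_nonneg _) (hm i)
    simp only [mul_add, Finset.sum_add_distrib] at h2
    rw [h1]
    simp only [B]
    linarith
  let lo : Fin n → ℤ := fun k => -B (Pi.single k 1)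
  let hi : Fin n → ℤ := fun k => B (fun l => -(Pi.single k 1 : Fin n → ℤ) l)
  have hfin : (Set.Icc lo hi).Finite := Set.finite_Icc lo hi
  refine (hfin.image fun m => Finsupp.equivFunOnFinite.symm fun i =>
    (d i + ∑ k, m k * u i k).toNat).subset ?_
  rintro α ⟨m, hm⟩
  have hm' : ∀ i, (α i : ℤ) = d i + ∑ k, m k * u i k := hm
  have hpos : ∀ i, 0 ≤ d i + ∑ k, m k * u i k := fun i => by
    rw [← hm' i]
    exact Int.natCast_nonneg _
  refine ⟨m, ⟨fun k => ?_, fun k => ?_⟩, ?_⟩
  · have := hb m (Pi.single k 1) hpos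
    simpa [Pi.single_apply] using this
  · have := hb m (fun l => -(Pi.single k 1 : Fin n → ℤ) l) hpos
    simp only [mul_neg, Finset.sum_neg_distrib] at this
    have h2 : ∑ l, m l * (Pi.single k 1 : Fin n → ℤ) l = m k := by simp [Pi.single_apply]
    rw [h2] at this
    simp only [hi]
    linarith
  · ext i
    rw [Finsupp.equivFunOnFinite_symm_apply_apply, ← hm' i, Int.toNat_natCast]

/-- Linearly independent vectors have a system of distinct nonzero coordinates. -/
theorem exists_matching {E : Type*} [AddCommGroup E] [Module ℂ E] {J K : Type*} [Fintype J]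
    [Fintype K] (D : J → E) (e : K → E) (M : J → K → ℂ)
    (hD : ∀ j, D j = ∑ i, M j i • e i) (hli : LinearIndependent ℂ D) :
    ∃ φ : J → K, Function.Injective φ ∧ ∀ j, M j (φ j) ≠ 0 := by
  classical
  have h := (Finset.all_card_le_biUnion_card_iff_exists_injective
    (fun j : J => Finset.univ.filter fun i : K => M j i ≠ 0)).1 (fun s => by
      set Nb := s.biUnion fun j => Finset.univ.filter fun i : K => M j i ≠ 0 with hNb
      let w : Finset E := Nb.image e
      have h1 : LinearIndependent ℂ fun j : s => D j := hli.comp _ Subtype.val_injective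
      have h2 : Set.range (fun j : s => D j) ≤ Submodule.span ℂ (w : Set E) := by
        rintro _ ⟨j, rfl⟩
        simp only
        rw [hD]
        refine Submodule.sum_mem _ fun i _ => ?_
        by_cases hi : M j i = 0
        · rw [hi, zero_smul]
          exact Submodule.zero_mem _
        · refine Submodule.smul_mem _ _ (Submodule.subset_span ?_)
          rw [Finset.mem_coe, Finset.mem_image]
          refine ⟨i, ?_, rfl⟩
          rw [hNb, Finset.mem_biUnion]
          exact ⟨j, j.2, Finset.mem_filter.2 ⟨Finset.mem_univ _, hi⟩⟩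
      have h3 := linearIndependent_le_span' _ h1 (w : Set E) h2
      have h4 : Fintype.card (w : Set E) ≤ Nb.card := by
        simp only [Finset.coe_sort_coe, Fintype.card_coe]
        exact Finset.card_image_le
      have h5 : s.card = Fintype.card s := (Fintype.card_coe s).symm
      rw [Cardinal.mk_fintype] at h3
      have h6 : Fintype.card s ≤ Fintype.card (w : Set E) := by exact_mod_cast h3
      rw [h5]
      exact h6.trans h4)
  obtain ⟨φ, h1, h2⟩ := h
  exact ⟨φ, h1, fun j => (Finset.mem_filter.1 (h2 j)).2⟩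

/-- A polynomial along a coordinate line. -/
theorem exists_exponent [DecidableEq ι] {f : MvPolynomial ι ℂ} {τ : Set ι} {x : ι → ℂ} (hx : ∀ i ∈ τ, x i = 0)
    {i : ι} (hi : i ∈ τ) (hf : ∀ α ∈ f.support, ∃ l ∈ τ, α l ≠ 0)
    (h : deriv (fun t : ℂ => eval (fun l => x l + t * (if l = i then 1 else 0)) f) 0 ≠ 0) :
    ∃ α ∈ f.support, α i = 1 ∧ ∀ l ∈ τ, l ≠ i → α l = 0 := by
  classical
  by_contra hcon
  push Not at hcon
  apply h
  have h1 : ∀ α ∈ f.support, HasDerivAt (fun t : ℂ => coeff α f *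
      ∏ l, (x l + t * (if l = i then 1 else 0)) ^ α l) 0 0 := by
    intro α hα
    -- the monomial vanishes to the order 2, or identically
    have h2 : (fun t : ℂ => coeff α f * ∏ l, (x l + t * (if l = i then 1 else 0)) ^ α l)
        = fun t : ℂ => (coeff α f * ∏ l ∈ Finset.univ.erase i, x l ^ α l) * t ^ α i := by
      ext t
      rw [← Finset.mul_prod_erase Finset.univ _ (Finset.mem_univ i), if_pos rfl, hx i hi]
      have h3 : ∏ l ∈ Finset.univ.erase i, (x l + t * (if l = i then 1 else 0)) ^ α l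
          = ∏ l ∈ Finset.univ.erase i, x l ^ α l :=
        Finset.prod_congr rfl fun l hl => by
          rw [if_neg (Finset.ne_of_mem_erase hl), mul_zero, add_zero]
      rw [h3]
      ring
    rw [h2]
    by_cases h4 : ∃ l ∈ τ, l ≠ i ∧ α l ≠ 0
    · obtain ⟨l, hl, hli, hl0⟩ := h4
      have h5 : ∏ l ∈ Finset.univ.erase i, x l ^ α l = 0 :=
        Finset.prod_eq_zero (Finset.mem_erase.2 ⟨hli, Finset.mem_univ l⟩) (by
          rw [hx l hl, zero_pow hl0])
      rw [h5, mul_zero]
      simpa using hasDerivAt_const (0 : ℂ) (0 : ℂ)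
    · push Not at h4
      have h6 : α i ≠ 1 := fun h6 => by
        obtain ⟨l, hl, hli, hl0⟩ := hcon α hα h6
        exact hl0 (h4 l hl hli)
      have h7 : α i ≠ 0 := by
        obtain ⟨l, hl, hl0⟩ := hf α hα
        by_cases hli : l = i
        · rw [← hli]
          exact hl0
        · exact absurd (h4 l hl hli) hl0
      have h8 := (hasDerivAt_pow (α i) (0 : ℂ)).const_mul
        (coeff α f * ∏ l ∈ Finset.univ.erase i, x l ^ α l)
      rw [zero_pow (by omega : α i - 1 ≠ 0), mul_zero, mul_zero] at h8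
      exact h8
  have h9 : (fun t : ℂ => eval (fun l => x l + t * (if l = i then 1 else 0)) f)
      = fun t : ℂ => ∑ α ∈ f.support, coeff α f *
        ∏ l, (x l + t * (if l = i then 1 else 0)) ^ α l := by
    ext t
    rw [eval_eq']
  rw [h9]
  have h10 := HasDerivAt.fun_sum h1
  rw [Finset.sum_const_zero] at h10
  exact h10.deriv

theorem eval_zero_of {f : MvPolynomial ι ℂ} {τ : Set ι} {x : ι → ℂ} (hx : ∀ i ∈ τ, x i = 0)
    (hf : ∀ α ∈ f.support, ∃ l ∈ τ, α l ≠ 0) : eval x f = 0 := by
  rw [eval_eq']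
  refine Finset.sum_eq_zero fun α hα => ?_
  obtain ⟨l, hl, hl0⟩ := hf α hα
  rw [Finset.prod_eq_zero (Finset.mem_univ l) (by rw [hx l hl, zero_pow hl0]), mul_zero]

/-- The weight inequality for normal crossing divisors. -/
theorem weights_of_nc {S : Set (Set ι)} {k : ℕ} {F : Fin k → V → MvPolynomial ι ℂ}
    (h : IsNormalCrossing S F) (a : ι → ℕ) (ha : {i | a i ≠ 0} ∈ S) :
    ∃ α : Fin k → ι →₀ ℕ, (∀ j, ∃ v, coeff (α j) (F j v) ≠ 0) ∧
      ∑ j, ∑ i, a i * α j i ≤ ∑ i, a i := by
  classical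
  set τ : Set ι := {i | a i ≠ 0} with hτ
  let x : ι → ℂ := fun i => if a i = 0 then 1 else 0
  have hxτ : ∀ i ∈ τ, x i = 0 := fun i hi => if_neg hi
  have hx : {i | x i = 0} ∈ S := by
    have : {i | x i = 0} = τ := by
      ext i
      simp only [x, hτ, Set.mem_ofPred_eq]
      split_ifs with h1 <;> simp [h1]
    rw [this]
    exact ha
  let v₁ : V := 0
  let J0 : Set (Fin k) := {j | ∀ v, ∀ α ∈ (F j v).support, ∃ l ∈ τ, α l ≠ 0}
  have hJ0 : ∀ j ∈ J0, ∀ (v : V) (y : ι → ℂ), (∀ i ∈ τ, y i = 0) → eval y (F j v) = 0 :=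
    fun j hj v y hy => eval_zero_of hy (hj v)
  -- the differentials
  have hli : LinearIndependent ℂ fun j : J0 =>
      fderiv ℂ (fun p : V × (ι → ℂ) => eval p.2 (F j p.1)) (v₁, x) :=
    (h v₁ x hx).comp (fun j : J0 => ⟨j, hJ0 j j.2 v₁ x hxτ⟩) (fun i j hij => by
      have := congrArg (fun z : {j : Fin k // eval x (F j v₁) = 0} => (z : Fin k)) hij
      exact Subtype.ext this)
  let e : ι → (V × (ι → ℂ) →L[ℂ] ℂ) := fun i =>
    (ContinuousLinearMap.proj i).comp (ContinuousLinearMap.snd ℂ V (ι → ℂ))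
  let M : J0 → ι → ℂ := fun j i => if i ∈ τ then
    fderiv ℂ (fun p : V × (ι → ℂ) => eval p.2 (F j p.1)) (v₁, x) (0, Pi.single i 1) else 0
  have hdiff : ∀ j : J0, DifferentiableAt ℂ (fun p : V × (ι → ℂ) => eval p.2 (F j p.1)) (v₁, x) := by
    intro j
    by_contra hd
    exact hli.ne_zero j (fderiv_zero_of_not_differentiableAt hd)
  have hline : ∀ (j : J0) (w : V) (y : ι → ℂ),
      fderiv ℂ (fun p : V × (ι → ℂ) => eval p.2 (F j p.1)) (v₁, x) (w, y)
        = deriv (fun t : ℂ => eval (x + t • y) (F j (v₁ + t • w))) 0 := by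
    intro j w y
    have h1 : HasDerivAt (fun t : ℂ => ((v₁, x) : V × (ι → ℂ)) + t • (w, y)) (w, y) 0 := by
      simpa using ((hasDerivAt_id (0 : ℂ)).smul_const ((w, y) : V × (ι → ℂ))).const_add (v₁, x)
    have h2 : HasFDerivAt (fun p : V × (ι → ℂ) => eval p.2 (F j p.1))
        (fderiv ℂ (fun p : V × (ι → ℂ) => eval p.2 (F j p.1)) (v₁, x))
        (((v₁, x) : V × (ι → ℂ)) + (0 : ℂ) • (w, y)) := by
      rw [zero_smul, add_zero]
      exact (hdiff j).hasFDerivAt
    have h3 := h2.comp_hasDerivAt (0 : ℂ) h1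
    exact h3.deriv.symm
  have hD : ∀ j : J0, fderiv ℂ (fun p : V × (ι → ℂ) => eval p.2 (F j p.1)) (v₁, x)
      = ∑ i, M j i • e i := by
    intro j
    apply ContinuousLinearMap.ext
    rintro ⟨w, y⟩
    set Df := fderiv ℂ (fun p : V × (ι → ℂ) => eval p.2 (F j p.1)) (v₁, x) with hDf
    have h1 : ((w, y) : V × (ι → ℂ)) = (w, 0) + ∑ i, y i • ((0 : V), (Pi.single i 1 : ι → ℂ)) := by
      have h2 : ∑ i, y i • ((0 : V), (Pi.single i 1 : ι → ℂ)) = (0, y) := by
        apply Prod.ext
        · rw [Prod.fst_sum]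
          simp
        · rw [Prod.snd_sum]
          simp only [Prod.smul_snd]
          ext l
          rw [Finset.sum_apply]
          simp [Pi.single_apply]
      rw [h2, Prod.mk_add_mk, add_zero, zero_add]
    have h3 : Df (w, 0) = 0 := by
      rw [hline]
      have h4 : (fun t : ℂ => eval (x + t • (0 : ι → ℂ)) (F j (v₁ + t • w))) = fun _ => 0 := by
        ext t
        rw [smul_zero, add_zero]
        exact hJ0 j j.2 _ x hxτ
      rw [h4]
      exact deriv_const _ _
    have h5 : ∀ i, Df ((0 : V), (Pi.single i 1 : ι → ℂ)) = M j i := by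
      intro i
      by_cases hi : i ∈ τ
      · simp only [M, if_pos hi, hDf]
      · simp only [M, if_neg hi]
        rw [hline]
        have h4 : (fun t : ℂ => eval (x + t • (Pi.single i 1 : ι → ℂ)) (F j (v₁ + t • (0 : V))))
            = fun _ => 0 := by
          ext t
          refine hJ0 j j.2 _ _ fun l hl => ?_
          have hli : l ≠ i := fun h => hi (h ▸ hl)
          rw [Pi.add_apply, Pi.smul_apply, Pi.single_apply, if_neg hli, hxτ l hl, smul_zero,
            add_zero]
        rw [h4]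
        exact deriv_const _ _
    rw [h1, map_add, map_sum, h3, zero_add, _root_.sum_apply]
    refine Finset.sum_congr rfl fun i _ => ?_
    rw [map_smul, h5, _root_.smul_apply, smul_eq_mul, smul_eq_mul, mul_comm]
    congr 1
    rw [← h1]
    rfl
  obtain ⟨φ, hφ, hφM⟩ := exists_matching _ e M hD hli
  have hφτ : ∀ j, φ j ∈ τ := by
    intro j
    by_contra hj
    exact hφM j (if_neg hj)
  have hα : ∀ j : J0, ∃ α ∈ (F j v₁).support, α (φ j) = 1 ∧ ∀ l ∈ τ, l ≠ φ j → α l = 0 := by
    intro j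
    refine exists_exponent hxτ (hφτ j) (j.2 v₁) ?_
    have h1 := hφM j
    simp only [M, if_pos (hφτ j)] at h1
    rw [hline] at h1
    convert h1 using 3 with t
    congr 1
    · congr 2
      ext l
      rw [Pi.add_apply, Pi.smul_apply, Pi.single_apply, smul_eq_mul]
    · rw [smul_zero, add_zero]
  have hex : ∀ j : Fin k, ∃ α : ι →₀ ℕ, (∃ v, coeff α (F j v) ≠ 0) ∧
      ∑ i, a i * α i ≤ if hj : j ∈ J0 then a (φ ⟨j, hj⟩) else 0 := by
    intro j
    by_cases hj : j ∈ J0
    · obtain ⟨α, h1, h2, h3⟩ := hα ⟨j, hj⟩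
      refine ⟨α, ⟨v₁, mem_support_iff.1 h1⟩, ?_⟩
      rw [dif_pos hj, Finset.sum_eq_single (φ ⟨j, hj⟩)]
      · rw [h2, mul_one]
      · intro l _ hl
        by_cases hlτ : l ∈ τ
        · rw [h3 l hlτ hl, mul_zero]
        · have : a l = 0 := not_not.1 hlτ
          rw [this, zero_mul]
      · intro h
        exact absurd (Finset.mem_univ _) h
    · have hj' := hj
      simp only [J0, Set.mem_ofPred_eq] at hj'
      push Not at hj'
      obtain ⟨v, α, hα, h0⟩ := hj'
      refine ⟨α, ⟨v, mem_support_iff.1 hα⟩, ?_⟩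
      rw [dif_neg hj, nonpos_iff_eq_zero]
      refine Finset.sum_eq_zero fun i _ => ?_
      by_cases hi : i ∈ τ
      · rw [h0 i hi, mul_zero]
      · have : a i = 0 := not_not.1 hi
        rw [this, zero_mul]
  choose α hα1 hα2 using hex
  refine ⟨α, hα1, (Finset.sum_le_sum fun j _ => hα2 j).trans ?_⟩
  have h1 : ∑ j, (if hj : j ∈ J0 then a (φ ⟨j, hj⟩) else 0) = ∑ j : J0, a (φ j) := by
    rw [Finset.sum_dite, Finset.sum_const_zero, add_zero]
    refine Finset.sum_bij (fun j _ => ⟨j.1, (Finset.mem_filter.1 j.2).2⟩) ?_ ?_ ?_ ?_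
    · intro j _
      exact Finset.mem_univ _
    · intro j _ j' _ hjj
      exact Subtype.ext (congrArg (fun z : J0 => (z : Fin k)) hjj)
    · intro j _
      exact ⟨⟨j.1, Finset.mem_filter.2 ⟨Finset.mem_univ _, j.2⟩⟩, Finset.mem_attach _ _, rfl⟩
    · intro j _
      rfl
  rw [h1, ← Finset.sum_image (f := a) (s := Finset.univ) (g := φ) fun i _ j _ hij => hφ hij]
  exact Finset.sum_le_sum_of_subset (Finset.subset_univ _)

end Q47.TB
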