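import Pool.Agent.Q47.TB.Hull
import Pool.Agent.Q47.KN.Main

/-!
# The coefficients of the sections on toric bundles
-/

set_option autoImplicit false

namespace Q47.TB

open Pool.Agent.W594.SYZ2 Pool.Agent.W594.SYZ2.TQ Pool.Agent.TH735.AQ MvPolynomial Q47.EB Q47.KN

variable {V : Type*} [NormedAddCommGroup V] [NormedSpace ℂ V] {Γ : Subgroup (V ≃ᵃ[ℂ] V)}
  {ι : Type*} [Fintype ι] {n : ℕ}

theorem prod_diff {J : Type*} (s : Finset J) (f : J → V → ℂ) (hf : ∀ i, Differentiable ℂ (f i)) :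
    Differentiable ℂ fun v => ∏ i ∈ s, f i v := by
  classical
  induction s using Finset.induction_on with
  | empty => simp
  | insert i s hi ih =>
    have : (fun v => ∏ j ∈ insert i s, f j v) = fun v => f i v * ∏ j ∈ s, f j v := by
      ext v
      rw [Finset.prod_insert hi]
    rw [this]
    exact (hf i).mul ih

/-- The line bundle `L ^ K ⊗ ∏ c_i ^ (- K β_i)`. -/
noncomputable def tw (L : LineBundle Γ) (c : ι → LineBundle Γ) (K : ℕ) (β : ι → ℕ) :
    LineBundle Γ where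
  e := fun γ v => L.e γ v ^ K * (∏ i, (c i).e γ v ^ (K * β i))⁻¹
  holo := fun γ => ((L.holo γ).pow K).mul fun v => ((prod_diff Finset.univ
    (fun i v => (c i).e γ v ^ (K * β i)) (fun i => ((c i).holo γ).pow _)) v).inv
      (Finset.prod_ne_zero_iff.2 fun i _ => pow_ne_zero _ ((c i).ne_zero γ v))
  ne_zero := fun γ v => mul_ne_zero (pow_ne_zero _ (L.ne_zero γ v)) (inv_ne_zero
    (Finset.prod_ne_zero_iff.2 fun i _ => pow_ne_zero _ ((c i).ne_zero γ v)))
  mul := fun γ δ v => by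
    rw [L.mul, mul_pow]
    simp only [(c _).mul, mul_pow, Finset.prod_mul_distrib, mul_inv]
    ring
  stab := fun γ v h => by
    rw [L.stab γ v h]
    simp only [(c _).stab γ v h, one_pow, Finset.prod_const_one, inv_one, mul_one]

theorem chern_tw {L : LineBundle Γ} {c : ι → LineBundle Γ} {H : V → V → ℂ}
    {Hc : ι → V → V → ℂ} (hK : IsChernForm L H) (hD : ∀ i, IsChernForm (c i) (Hc i))
    (K : ℕ) (β : ι → ℕ) :
    IsChernForm (tw L c K β) fun v w => (K : ℂ) * (H v w - ∑ i, (β i : ℂ) * Hc i v w) := by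
  obtain ⟨hH, F, hF, hFe⟩ := hK
  choose hHD G hG hGe using hD
  refine ⟨?_, fun v => K * (F v - ∑ i, β i * G i v), ?_, ?_⟩
  · refine ⟨fun u v w => ?_, fun a v w => ?_, fun v w => ?_⟩
    · simp only [hH.add_left, (hHD _).add_left, mul_add, Finset.sum_add_distrib]
      ring
    · simp only [hH.smul_left, (hHD _).smul_left, mul_sub, Finset.mul_sum]
      congr 1
      · ring
      · exact Finset.sum_congr rfl fun i _ => by ring
    · simp only [map_sub, map_mul, map_sum, Complex.conj_natCast, ← hH.symm, ← (hHD _).symm]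
  · exact (hF.sub (Differentiable.fun_sum fun i _ => (hG i).const_mul _)).const_mul _
  · intro γ v
    have h1 : ‖(tw L c K β).e γ v‖ ^ 2 = (‖L.e γ v‖ ^ 2) ^ K *
        (∏ i, (‖(c i).e γ v‖ ^ 2) ^ (K * β i))⁻¹ := by
      change ‖L.e γ v ^ K * (∏ i, (c i).e γ v ^ (K * β i))⁻¹‖ ^ 2 = _
      rw [norm_mul, norm_pow, norm_inv, norm_prod, mul_pow, ← pow_mul, ← pow_mul, mul_comm K 2,
        inv_pow, ← Finset.prod_pow]
      congr 2
      exact Finset.prod_congr rfl fun i _ => by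
        rw [norm_pow, ← pow_mul, ← pow_mul, mul_comm]
    have h2 : ∀ i, (‖(c i).e γ v‖ ^ 2) ^ (K * β i) = Real.exp ((K * β i : ℕ) * (Real.pi *
        (Hc i ((γ : V ≃ᵃ[ℂ] V) v) ((γ : V ≃ᵃ[ℂ] V) v)).re
        + 2 * (G i ((γ : V ≃ᵃ[ℂ] V) v)).re - (Real.pi * (Hc i v v).re + 2 * (G i v).re))) :=
      fun i => by rw [hGe, ← Real.exp_nat_mul]
    have hre : ∀ (a : ℂ) (b : ι → ℂ), ((K : ℂ) * (a - ∑ i, (β i : ℂ) * b i)).re
        = K * a.re - ∑ i, ((K * β i : ℕ) : ℝ) * (b i).re := by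
      intro a b
      have e1 : ((K : ℕ) : ℂ) = ((K : ℝ) : ℂ) := by push_cast; rfl
      rw [e1, Complex.re_ofReal_mul, Complex.sub_re, Complex.re_sum, mul_sub, Finset.mul_sum]
      congr 1
      refine Finset.sum_congr rfl fun i _ => ?_
      have : ((β i : ℕ) : ℂ) = ((β i : ℝ) : ℂ) := by push_cast; rfl
      rw [this, Complex.re_ofReal_mul]
      push_cast
      ring
    rw [h1, Finset.prod_congr rfl fun i _ => h2 i, ← Real.exp_sum, hFe, ← Real.exp_nat_mul,
      ← Real.exp_neg, ← Real.exp_add]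
    congr 1
    simp only [hre]
    have e3 : ∀ (x : V), ∑ i, ((K * β i : ℕ) : ℝ) * (Real.pi * (Hc i x x).re + 2 * (G i x).re)
        = Real.pi * ∑ i, ((K * β i : ℕ) : ℝ) * (Hc i x x).re
          + 2 * ∑ i, ((K * β i : ℕ) : ℝ) * (G i x).re := by
      intro x
      rw [Finset.mul_sum, Finset.mul_sum, ← Finset.sum_add_distrib]
      exact Finset.sum_congr rfl fun i _ => by ring
    simp only [mul_sub, Finset.sum_sub_distrib, e3]
    ring

/-! ### Scaling -/

/-- The polynomial `p(t x)`. -/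
noncomputable def sc (t : ι → ℂ) (p : MvPolynomial ι ℂ) : MvPolynomial ι ℂ :=
  ∑ α ∈ p.support, monomial α (coeff α p * ∏ i, t i ^ α i)

theorem coeff_sc (t : ι → ℂ) (p : MvPolynomial ι ℂ) (α : ι →₀ ℕ) :
    coeff α (sc t p) = coeff α p * ∏ i, t i ^ α i := by
  classical
  rw [sc, coeff_sum]
  simp only [coeff_monomial]
  rw [Finset.sum_ite_eq']
  split_ifs with h
  · rfl
  · rw [notMem_support_iff.1 h, zero_mul]

theorem eval_sc (t : ι → ℂ) (p : MvPolynomial ι ℂ) (x : ι → ℂ) :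
    eval x (sc t p) = eval (fun i => t i * x i) p := by
  rw [sc, map_sum, eval_eq']
  refine Finset.sum_congr rfl fun α _ => ?_
  rw [eval_monomial, Finsupp.prod_fintype _ _ fun i => pow_zero _]
  simp only [mul_pow, Finset.prod_mul_distrib]
  ring

/-- Comparing the coefficients. -/
theorem coeff_of_eval {t : ι → ℂ} {p q : MvPolynomial ι ℂ} {a b : ℂ}
    (h : ∀ x, eval (fun i => t i * x i) p * a = b * eval x q) (α : ι →₀ ℕ) :
    coeff α p * (∏ i, t i ^ α i) * a = b * coeff α q := by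
  have h1 : C a * sc t p = C b * q := by
    apply MvPolynomial.funext
    intro x
    rw [map_mul, map_mul, eval_C, eval_C, eval_sc, mul_comm, h]
  have h2 := congrArg (coeff α) h1
  rw [coeff_C_mul, coeff_C_mul, coeff_sc] at h2
  rw [mul_comm, h2]

/-! ### The product of the coefficients -/

theorem exists_common_prod {J : Type*} [FiniteDimensional ℂ V] (s : Finset J) (f : J → V → ℂ)
    (hf : ∀ i ∈ s, Differentiable ℂ (f i)) (h : ∀ i ∈ s, ∃ v, f i v ≠ 0) :
    ∃ v, ∏ i ∈ s, f i v ≠ 0 := by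
  classical
  induction s using Finset.induction_on with
  | empty => exact ⟨0, by simp⟩
  | insert i s hi ih =>
    obtain ⟨w, hw⟩ := ih (fun j hj => hf j (Finset.mem_insert_of_mem hj))
      (fun j hj => h j (Finset.mem_insert_of_mem hj))
    have h1 : Differentiable ℂ fun v => ∏ j ∈ s, f j v := by
      have h2 := prod_diff s (fun j v => if j ∈ s then f j v else 0) (fun j => by
        by_cases hj : j ∈ s
        · simpa only [if_pos hj] using hf j (Finset.mem_insert_of_mem hj)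
        · simpa only [if_neg hj] using differentiable_const (0 : ℂ))
      have h3 : (fun v => ∏ j ∈ s, f j v) = fun v => ∏ j ∈ s, if j ∈ s then f j v else 0 := by
        ext v
        exact Finset.prod_congr rfl fun j hj => by rw [if_pos hj]
      rw [h3]
      exact h2
    obtain ⟨v, hv1, hv2⟩ := exists_common (hf i (Finset.mem_insert_self i s)) h1
      (h i (Finset.mem_insert_self i s)) ⟨w, hw⟩
    exact ⟨v, by rw [Finset.prod_insert hi]; exact mul_ne_zero hv1 hv2⟩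

/-- The product of powers of functions which transform as coefficients defines a log pluricanonical
divisor on the base. -/
theorem exists_base_pair₀ [FiniteDimensional ℂ V] {u : ι → Fin n → ℤ} {S : Set (Set ι)}
    (hS : IsSmoothFan u S) {c : ι → LineBundle Γ} {m : ℕ} {ρ : V → ℂ} {d : ι → ℤ}
    {L : LineBundle Γ} (T : Finset (ι →₀ ℕ)) (f : (ι →₀ ℕ) → V → ℂ)
    (hf : ∀ α, Differentiable ℂ (f α)) (hT : ∀ α ∈ T, ∃ v, f α v ≠ 0)
    (hcls : ∀ α ∈ T, LinEquiv u (fun i => (α i : ℤ)) d)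
    (hrel : ∀ α ∈ T, ∀ (γ : Γ) (v : V),
      f α ((γ : V ≃ᵃ[ℂ] V) v) * (∏ i, (c i).e γ v ^ α i) * ρ v ^ m
        = (L.e γ v * (LinearMap.det ((γ : V ≃ᵃ[ℂ] V).linear : V →ₗ[ℂ] V) *
          ∏ i, (c i).e γ v) ^ m * ρ ((γ : V ≃ᵃ[ℂ] V) v) ^ m) * f α v)
    (hw : ∀ a : ι → ℕ, {i | a i ≠ 0} ∈ S → ∃ α ∈ T, ∑ i, a i * α i ≤ m * ∑ i, a i)
    {β : ι → ℕ} (hβ : LinEquiv u (fun i => (β i : ℤ)) (fun i => d i - m)) :
    ∃ K : ℕ, 1 ≤ K ∧ ∃ P : V → ℂ, Differentiable ℂ P ∧ (∃ v, P v ≠ 0) ∧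
      Pool.Agent.TH735.AQ.IsLogPluricanonical (tw L c K β) (m * K) ρ P := by
  classical
  obtain ⟨b, hb1, hb⟩ := exists_comb hS T hcls hβ hw
  set K := ∑ α ∈ T, b α with hK
  refine ⟨K, hb1, fun v => ∏ α ∈ T, f α v ^ b α,
    prod_diff T (fun α v => f α v ^ b α) (fun α => (hf α).pow _),
    exists_common_prod T (fun α v => f α v ^ b α) (fun α _ => (hf α).pow _)
      (fun α hα => by
        obtain ⟨v, hv⟩ := hT α hα
        exact ⟨v, pow_ne_zero _ hv⟩), fun γ v => ?_⟩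
  set D := LinearMap.det ((γ : V ≃ᵃ[ℂ] V).linear : V →ₗ[ℂ] V) with hD
  set Q := ∏ i, (c i).e γ v with hQ
  have hQ0 : Q ≠ 0 := Finset.prod_ne_zero_iff.2 fun i _ => (c i).ne_zero γ v
  have hprod : (∏ α ∈ T, f α ((γ : V ≃ᵃ[ℂ] V) v) ^ b α) *
      (∏ α ∈ T, (∏ i, (c i).e γ v ^ α i) ^ b α) * (ρ v ^ m) ^ K
      = (L.e γ v * (D * Q) ^ m * ρ ((γ : V ≃ᵃ[ℂ] V) v) ^ m) ^ K *
        ∏ α ∈ T, f α v ^ b α := by
    rw [hK, ← Finset.prod_pow_eq_pow_sum, ← Finset.prod_pow_eq_pow_sum, ← Finset.prod_mul_distrib,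
      ← Finset.prod_mul_distrib, ← Finset.prod_mul_distrib]
    refine Finset.prod_congr rfl fun α hα => ?_
    rw [← mul_pow, ← mul_pow, hrel α hα γ v, mul_pow]
  have hpow : (∏ α ∈ T, (∏ i, (c i).e γ v ^ α i) ^ b α)
      = Q ^ (m * K) * ∏ i, (c i).e γ v ^ (K * β i) := by
    have h1 : ∀ α ∈ T, (∏ i, (c i).e γ v ^ α i) ^ b α = ∏ i, (c i).e γ v ^ (b α * α i) := by
      intro α _
      rw [← Finset.prod_pow]
      exact Finset.prod_congr rfl fun i _ => by rw [← pow_mul, mul_comm]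
    rw [Finset.prod_congr rfl h1, Finset.prod_comm, hQ, ← Finset.prod_pow,
      ← Finset.prod_mul_distrib]
    refine Finset.prod_congr rfl fun i _ => ?_
    rw [Finset.prod_pow_eq_pow_sum, hb i, ← pow_add]
    congr 1
    ring
  rw [hpow] at hprod
  change (∏ α ∈ T, f α ((γ : V ≃ᵃ[ℂ] V) v) ^ b α) * ρ v ^ (m * K)
    = L.e γ v ^ K * (∏ i, (c i).e γ v ^ (K * β i))⁻¹ * D ^ (m * K) *
      (∏ α ∈ T, f α v ^ b α) * ρ ((γ : V ≃ᵃ[ℂ] V) v) ^ (m * K)
  have hW0 : (∏ i, (c i).e γ v ^ (K * β i)) ≠ 0 :=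
    Finset.prod_ne_zero_iff.2 fun i _ => pow_ne_zero _ ((c i).ne_zero γ v)
  have hQ1 : Q ^ (m * K) ≠ 0 := pow_ne_zero _ hQ0
  set W := ∏ i, (c i).e γ v ^ (K * β i)
  set A := ∏ α ∈ T, f α ((γ : V ≃ᵃ[ℂ] V) v) ^ b α
  set B := ∏ α ∈ T, f α v ^ b α
  have h3 : (A * ρ v ^ (m * K) * W) * Q ^ (m * K)
      = (L.e γ v ^ K * D ^ (m * K) * B * ρ ((γ : V ≃ᵃ[ℂ] V) v) ^ (m * K)) * Q ^ (m * K) := by
    have e1 : (ρ v ^ m) ^ K = ρ v ^ (m * K) := (pow_mul _ _ _).symm
    have e2 : (L.e γ v * (D * Q) ^ m * ρ ((γ : V ≃ᵃ[ℂ] V) v) ^ m) ^ K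
        = L.e γ v ^ K * (D ^ (m * K) * Q ^ (m * K)) * ρ ((γ : V ≃ᵃ[ℂ] V) v) ^ (m * K) := by
      rw [mul_pow, mul_pow, ← pow_mul, ← pow_mul, mul_pow]
    rw [e1, e2] at hprod
    linear_combination hprod
  have h4 := mul_right_cancel₀ hQ1 h3
  field_simp
  linear_combination h4

/-- The product of powers of the coefficients defines a log pluricanonical divisor on the base. -/
theorem exists_base_pair [FiniteDimensional ℂ V] {u : ι → Fin n → ℤ} {S : Set (Set ι)}
    (hS : IsSmoothFan u S) {c : ι → LineBundle Γ} {m : ℕ} {ρ : V → ℂ} {d : ι → ℤ}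
    {F : V → MvPolynomial ι ℂ} {L : LineBundle Γ} (hF : IsLogPluricanonical u c m ρ d F L)
    (T : Finset (ι →₀ ℕ)) (hT : ∀ α ∈ T, ∃ v, coeff α (F v) ≠ 0)
    (hw : ∀ a : ι → ℕ, {i | a i ≠ 0} ∈ S → ∃ α ∈ T, ∑ i, a i * α i ≤ m * ∑ i, a i)
    {β : ι → ℕ} (hβ : LinEquiv u (fun i => (β i : ℤ)) (fun i => d i - m)) :
    ∃ K : ℕ, 1 ≤ K ∧ ∃ P : V → ℂ, Differentiable ℂ P ∧ (∃ v, P v ≠ 0) ∧
      Pool.Agent.TH735.AQ.IsLogPluricanonical (tw L c K β) (m * K) ρ P := by
  refine exists_base_pair₀ hS T (fun α v => coeff α (F v)) hF.holo hT (fun α hα => ?_)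
    (fun α _ γ v => ?_) hw hβ
  · obtain ⟨v, hv⟩ := hT α hα
    exact hF.deg v α (mem_support_iff.2 hv)
  · refine coeff_of_eval (fun x => ?_) α
    rw [hF.eq γ v x]
    ring

/-! ### Monomial sections -/

theorem isSection_monomial {u : ι → Fin n → ℤ} {c : ι → LineBundle Γ} {d : ι → ℤ}
    {L : LineBundle Γ} {K N : ℕ} {β : ι → ℕ}
    (hβ : LinEquiv u (fun i => (β i : ℤ)) d) {s : V → ℂ}
    (hs : ((tw L c K β).pow N).IsSection s) :
    IsSection u c (fun i => (K * N : ℕ) * d i) (fun γ v => L.e γ v ^ (K * N))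
      (fun v => monomial (Finsupp.equivFunOnFinite.symm fun i => K * N * β i) (s v)) := by
  classical
  refine ⟨fun α => ?_, fun v α hα => ?_, fun γ v x => ?_⟩
  · simp only [coeff_monomial]
    split_ifs with h
    · exact hs.holo
    · exact differentiable_const _
  · rw [mem_support_iff, coeff_monomial] at hα
    have h1 : (Finsupp.equivFunOnFinite.symm fun i => K * N * β i) = α := by
      by_contra hne
      rw [if_neg hne] at hα
      exact hα rfl
    obtain ⟨q, hq⟩ := hβ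
    refine ⟨fun k => (K * N : ℕ) * q k, fun i => ?_⟩
    rw [← h1]
    simp only [Finsupp.equivFunOnFinite_symm_apply_apply]
    have h3 : (β i : ℤ) = d i + ∑ k, q k * u i k := hq i
    push_cast
    rw [h3, mul_add, Finset.mul_sum]
    congr 1
    exact Finset.sum_congr rfl fun k _ => by ring
  · rw [eval_monomial, eval_monomial, Finsupp.prod_fintype _ _ fun i => pow_zero _,
      Finsupp.prod_fintype _ _ fun i => pow_zero _]
    simp only [Finsupp.equivFunOnFinite_symm_apply_apply, mul_pow, Finset.prod_mul_distrib]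
    have h1 := hs.eq γ v
    have h2 : ((tw L c K β).pow N).e γ v = L.e γ v ^ (K * N) *
        (∏ i, (c i).e γ v ^ (K * N * β i))⁻¹ := by
      change (L.e γ v ^ K * (∏ i, (c i).e γ v ^ (K * β i))⁻¹) ^ N = _
      rw [mul_pow, ← pow_mul, inv_pow, ← Finset.prod_pow]
      congr 2
      exact Finset.prod_congr rfl fun i _ => by
        rw [← pow_mul]
        congr 1
        ring
    have hW0 : (∏ i, (c i).e γ v ^ (K * N * β i)) ≠ 0 :=
      Finset.prod_ne_zero_iff.2 fun i _ => pow_ne_zero _ ((c i).ne_zero γ v)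
    rw [h1, h2]
    field_simp

end Q47.TB
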