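import Pool.Agent.Q47.TB.Snc

/-!
# Abundance for complete intersections in toric bundles
-/

set_option autoImplicit false

namespace Q47.TB

open Pool.Agent.W594.SYZ2 Pool.Agent.W594.SYZ2.TQ Pool.Agent.TH735.AQ MvPolynomial Q47.EB Q47.KN

variable {V : Type*} [NormedAddCommGroup V] [NormedSpace ℂ V]
  {Γ : Subgroup (V ≃ᵃ[ℂ] V)} {ι : Type*} [Fintype ι] {n : ℕ}

/-- Without fixed points there is no ramification. -/
theorem ram_one (hfree : ∀ γ ∈ Γ, ∀ v, γ v = v → γ = 1) : IsRamification Γ fun _ => 1 where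
  holo := differentiable_const _
  zero_iff := by
    intro v
    refine ⟨fun h => absurd h one_ne_zero, ?_⟩
    rintro ⟨γ, hγ, hne, ℓ, hℓ, h⟩
    exact absurd (hfree γ hγ v (h v rfl)) hne
  order := by
    intro ℓ c hℓ
    obtain ⟨x, hx⟩ : ∃ x, ℓ x ≠ 0 := by
      by_contra hcon
      push Not at hcon
      exact hℓ (LinearMap.ext hcon)
    have hy : ℓ ((c / ℓ x) • x) = c := by
      rw [map_smul, smul_eq_mul, div_mul_cancel₀ _ hx]
    have h1 : ramIndex Γ ℓ c = 1 := by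
      rw [ramIndex, Nat.card_eq_one_iff_unique]
      refine ⟨⟨?_⟩, ⟨⟨1, Γ.one_mem, fun _ _ => rfl⟩⟩⟩
      rintro ⟨γ, hγ, h⟩ ⟨δ, hδ, h'⟩
      apply Subtype.ext
      change γ = δ
      rw [hfree γ hγ _ (h _ hy), hfree δ hδ _ (h' _ hy)]
    refine ⟨fun _ => 1, differentiable_const _, fun w => ?_, (c / ℓ x) • x, hy, one_ne_zero⟩
    rw [h1]
    simp

/-- The determinant of the linear part. -/
noncomputable def dt (γ : Γ) : ℂ := LinearMap.det ((γ : V ≃ᵃ[ℂ] V).linear : V →ₗ[ℂ] V)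

theorem dt_mul (γ δ : Γ) : dt (γ * δ) = dt γ * dt δ := by
  rw [dt, dt, dt, ← LinearMap.det_comp]
  rfl

theorem dt_one : dt (1 : Γ) = 1 := LinearMap.det_id

theorem dt_ne (γ : Γ) : dt γ ≠ 0 := fun h => by
  have h1 := dt_mul γ γ⁻¹
  rw [mul_inv_cancel, dt_one, h, zero_mul] at h1
  exact one_ne_zero h1

theorem dt_norm (hΓ : IsTorusQuotient Γ) (γ : Γ) : ‖dt γ‖ = 1 := by
  have := finite_Lin hΓ
  have hg : (γ : V ≃ᵃ[ℂ] V).linear ∈ Lin Γ := mem_Lin.2 ⟨γ, γ.2, rfl⟩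
  have h2 : (⟨(γ : V ≃ᵃ[ℂ] V).linear, hg⟩ : Lin Γ) ^ Nat.card (Lin Γ) = 1 := pow_card_eq_one'
  have h3 : (γ : V ≃ᵃ[ℂ] V).linear ^ Nat.card (Lin Γ) = 1 := congrArg Subtype.val h2
  have h4 : (((γ : V ≃ᵃ[ℂ] V).linear ^ Nat.card (Lin Γ) : V ≃ₗ[ℂ] V) : V →ₗ[ℂ] V)
      = ((γ : V ≃ᵃ[ℂ] V).linear : V →ₗ[ℂ] V) ^ Nat.card (Lin Γ) := by
    generalize Nat.card (Lin Γ) = k
    induction k with
    | zero => rfl
    | succ k ih =>
      rw [pow_succ, pow_succ, ← ih]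
      rfl
  have hdet : dt γ ^ Nat.card (Lin Γ) = 1 := by
    rw [dt, ← map_pow, ← h4, h3]
    exact LinearMap.det_id
  have h5 := congrArg norm hdet
  rw [norm_pow, norm_one] at h5
  exact (pow_eq_one_iff_of_nonneg (norm_nonneg _) Nat.card_pos.ne').1 h5

/-- The canonical line bundle of the base. -/
noncomputable def Kx (hfree : ∀ γ ∈ Γ, ∀ v, γ v = v → γ = 1) : LineBundle Γ where
  e := fun γ _ => (dt γ)⁻¹
  holo := fun _ => differentiable_const _
  ne_zero := fun γ _ => inv_ne_zero (dt_ne γ)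
  mul := fun γ δ _ => by rw [dt_mul, mul_inv]
  stab := fun γ v h => by
    have h1 : γ = 1 := Subtype.ext (hfree γ γ.2 v h)
    rw [h1, dt_one, inv_one]

theorem chern_Kx (hΓ : IsTorusQuotient Γ) (hfree : ∀ γ ∈ Γ, ∀ v, γ v = v → γ = 1) :
    IsChernForm (Kx hfree) fun _ _ => 0 := by
  refine ⟨⟨fun _ _ _ => (add_zero _).symm, fun _ _ _ => (mul_zero _).symm, fun _ _ => by simp⟩,
    fun _ => 0, differentiable_const 0, fun γ v => ?_⟩
  change ‖(dt γ)⁻¹‖ ^ 2 = _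
  rw [norm_inv, dt_norm hΓ]
  simp

/-- The line bundle `K_Y + ∑ D_j` on the toric bundle, its part on the base. -/
noncomputable def ad (hfree : ∀ γ ∈ Γ, ∀ v, γ v = v → γ = 1) (c : ι → LineBundle Γ) {k : ℕ}
    (E : Fin k → LineBundle Γ) : LineBundle Γ :=
  tw (Q47.MM.adj (Kx hfree) E 1 fun _ => 1) c 1 fun _ => 1

theorem ad_e (hfree : ∀ γ ∈ Γ, ∀ v, γ v = v → γ = 1) (c : ι → LineBundle Γ) {k : ℕ}
    (E : Fin k → LineBundle Γ) (γ : Γ) (v : V) :
    (ad hfree c E).e γ v = (∏ j, (E j).e γ v) * (dt γ * ∏ i, (c i).e γ v)⁻¹ := by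
  change ((dt γ)⁻¹ ^ 1 * ∏ j, (E j).e γ v ^ 1) ^ 1 * (∏ i, (c i).e γ v ^ (1 * 1))⁻¹ = _
  simp only [pow_one, mul_one, mul_inv]
  ring

theorem chern_ad (hΓ : IsTorusQuotient Γ) (hfree : ∀ γ ∈ Γ, ∀ v, γ v = v → γ = 1)
    {c : ι → LineBundle Γ} {Hc : ι → V → V → ℂ} (hc : ∀ i, IsChernForm (c i) (Hc i)) {k : ℕ}
    {E : Fin k → LineBundle Γ} {HE : Fin k → V → V → ℂ} (hE : ∀ j, IsChernForm (E j) (HE j)) :
    ∃ H, IsChernForm (ad hfree c E) H :=
  ⟨_, chern_tw (Q47.MM.chern_adj (chern_Kx hΓ hfree) hE 1 fun _ => 1) hc 1 fun _ => 1⟩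

/-- Abundance for the strata of normal crossing divisors. -/
theorem abundance_snc [FiniteDimensional ℂ V] (hΓ : IsTorusQuotient Γ)
    (hfree : ∀ γ ∈ Γ, ∀ v, γ v = v → γ = 1)
    {u : ι → Fin n → ℤ} {S : Set (Set ι)} (hS : IsSmoothFan u S)
    {c : ι → LineBundle Γ} {Hc : ι → V → V → ℂ} (hc : ∀ i, IsChernForm (c i) (Hc i)) {k : ℕ}
    {E : Fin k → LineBundle Γ} {HE : Fin k → V → V → ℂ} (hE : ∀ j, IsChernForm (E j) (HE j))
    {d : Fin k → ι → ℤ} {F : Fin k → V → MvPolynomial ι ℂ}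
    (hF : ∀ j, IsSection u c (d j) (E j).e (F j)) (hnc : IsNormalCrossing S F)
    (hnef : IsFibreNef u S fun i => ∑ j, d j i - 1) :
    ∃ N : ℕ, 1 ≤ N ∧ ∀ (v : V) (x : ι → ℂ), {i | x i = 0} ∈ S →
      ∃ G, IsSection u c (fun i => (N : ℤ) * (∑ j, d j i - 1))
        (fun γ v => ((∏ j, (E j).e γ v) * (dt γ * ∏ i, (c i).e γ v)⁻¹) ^ N) G ∧
        eval x (G v) ≠ 0 := by
  classical
  have hfinT : ∀ j, {α : ι →₀ ℕ | ∃ v, coeff α (F j v) ≠ 0}.Finite := fun j =>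
    (finite_class hS (d j)).subset fun α ⟨v, hv⟩ => (hF j).deg v α (mem_support_iff.2 hv)
  let Tj : Fin k → Finset (ι →₀ ℕ) := fun j => (hfinT j).toFinset
  have hTj : ∀ j α, α ∈ Tj j ↔ ∃ v, coeff α (F j v) ≠ 0 := fun j α => by
    simp only [Tj, Set.Finite.mem_toFinset, Set.mem_ofPred_eq]
  let T : Finset (ι →₀ ℕ) := (Fintype.piFinset Tj).image fun t => ∑ j, t j
  have hT : ∀ α ∈ T, ∃ t : Fin k → ι →₀ ℕ, (∀ j, ∃ v, coeff (t j) (F j v) ≠ 0) ∧ ∑ j, t j = α := by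
    intro α hα
    obtain ⟨t, ht, h⟩ := Finset.mem_image.1 hα
    exact ⟨t, fun j => (hTj j _).1 (Fintype.mem_piFinset.1 ht j), h⟩
  choose! g hg1 hg2 using hT
  let f : (ι →₀ ℕ) → V → ℂ := fun α v => ∏ j, coeff (g α j) (F j v)
  obtain ⟨H, hH⟩ := chern_ad hΓ hfree hc hE
  have hram := ram_one hfree
  have hcoef : ∀ (j : Fin k) (α : ι →₀ ℕ) (γ : Γ) (v : V),
      coeff α (F j ((γ : V ≃ᵃ[ℂ] V) v)) * (∏ i, (c i).e γ v ^ α i) * 1
        = (E j).e γ v * coeff α (F j v) := by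
    intro j α γ v
    refine coeff_of_eval (fun x => ?_) α
    rw [mul_one]
    exact (hF j).eq γ v x
  have hgg : ∀ σ ∈ S, ∃ β : ι → ℕ, (∀ i ∈ σ, β i = 0) ∧
      LinEquiv u (fun i => (β i : ℤ)) (fun i => ∑ j, d j i - 1) ∧
      ∃ K : ℕ, 1 ≤ K ∧ GG ((tw (ad hfree c E) c K β).pow (expo (Module.finrank ℂ V))) := by
    intro σ hσ
    obtain ⟨β, hβ0, hβ⟩ := hnef σ hσ
    have hβ' : LinEquiv u (fun i => (β i : ℤ))
        (fun i => (∑ j, d j i) - ((1 : ℕ) : ℤ)) := by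
      simpa using hβ
    obtain ⟨K, hK, P, hP, hP0, hPe⟩ := exists_base_pair₀ (m := 1) (ρ := fun _ => 1)
      (L := ad hfree c E) (c := c) (d := fun i => ∑ j, d j i) hS T f
      (fun α => prod_diff Finset.univ (fun j v => coeff (g α j) (F j v))
        fun j => (hF j).holo _)
      (fun α hα => exists_common_prod Finset.univ (fun j v => coeff (g α j) (F j v))
        (fun j _ => (hF j).holo _) fun j _ => hg1 α hα j)
      (fun α hα => by
        have hex : ∀ j, LinEquiv u (fun i => (g α j i : ℤ)) (d j) := fun j => by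
          obtain ⟨v, hv⟩ := hg1 α hα j
          exact (hF j).deg v _ (mem_support_iff.2 hv)
        choose m hm using hex
        refine ⟨fun l => ∑ j, m j l, fun i => ?_⟩
        have h1 : ∀ j, ((g α j i : ℕ) : ℤ) = d j i + ∑ l, m j l * u i l := fun j => hm j i
        have h2 : ((α i : ℕ) : ℤ) = ∑ j, ((g α j i : ℕ) : ℤ) := by
          conv_lhs => rw [← hg2 α hα]
          rw [Finsupp.finsetSum_apply]
          push_cast
          rfl
        change ((α i : ℕ) : ℤ) = _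
        rw [h2]
        simp only [h1, Finset.sum_add_distrib, Finset.sum_mul]
        congr 1
        rw [Finset.sum_comm])
      (fun α hα γ v => by
        rw [ad_e]
        change (∏ j, coeff (g α j) (F j ((γ : V ≃ᵃ[ℂ] V) v))) * _ * 1 ^ 1
          = _ * (dt γ * ∏ i, (c i).e γ v) ^ 1 * 1 ^ 1 * ∏ j, coeff (g α j) (F j v)
        have hQ : dt γ * ∏ i, (c i).e γ v ≠ 0 := mul_ne_zero (dt_ne γ)
          (Finset.prod_ne_zero_iff.2 fun i _ => (c i).ne_zero γ v)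
        simp only [mul_one, pow_one]
        rw [inv_mul_cancel_right₀ hQ]
        have h1 : (∏ i, (c i).e γ v ^ α i) = ∏ j, ∏ i, (c i).e γ v ^ g α j i := by
          rw [Finset.prod_comm]
          refine Finset.prod_congr rfl fun i _ => ?_
          rw [Finset.prod_pow_eq_pow_sum]
          congr 1
          conv_lhs => rw [← hg2 α hα]
          rw [Finsupp.finsetSum_apply]
        rw [h1, ← Finset.prod_mul_distrib, ← Finset.prod_mul_distrib]
        refine Finset.prod_congr rfl fun j _ => ?_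
        rw [← hcoef j (g α j) γ v, mul_one])
      (fun a ha => by
        obtain ⟨t, ht1, ht2⟩ := weights_of_nc hnc a ha
        refine ⟨∑ j, t j, Finset.mem_image.2 ⟨t, Fintype.mem_piFinset.2 fun j =>
          (hTj j _).2 (ht1 j), rfl⟩, ?_⟩
        rw [one_mul]
        refine le_trans (le_of_eq ?_) ht2
        simp only [Finsupp.finsetSum_apply, Finset.mul_sum]
        rw [Finset.sum_comm])
      hβ'
    exact ⟨β, hβ0, hβ, K, hK, gg_tw hΓ hram hH hc hP hP0 hPe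
      (nef_of_pair hΓ hram.holo (fun _ => one_ne_zero) hH hc hK hP hP0 hPe)⟩
  obtain ⟨N, hN, hmain⟩ := semiample_of_gg (expo_pos (Module.finrank ℂ V)) hgg
  refine ⟨N, hN, fun v x hx => ?_⟩
  obtain ⟨G, hG, hG0⟩ := hmain v x hx
  refine ⟨G, ⟨hG.holo, hG.deg, fun γ w y => ?_⟩, hG0⟩
  have := hG.eq γ w y
  rw [ad_e] at this
  exact this

end Q47.TB
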