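import Pool.Agent.Q47.TB.Defs
import Mathlib.MeasureTheory.Measure.Lebesgue.VolumeOfBalls

/-!
# Log canonical pairs on toric varieties: weights
-/

set_option autoImplicit false

namespace Q47.TB

open MvPolynomial MeasureTheory Filter Topology

variable {ι : Type*} [Fintype ι]

/-- bound of a monomial -/
theorem mono_le {s t : ℝ} (hs : 0 ≤ s) (ht : 0 ≤ t) (ht1 : t ≤ 1) (a : ι → ℕ) (α : ι →₀ ℕ) {B : ℕ}
    (hB : B ≤ ∑ i, a i * α i) {y : ι → ℂ} (hy : ∀ i, ‖y i‖ ≤ s * t ^ a i) :
    ‖∏ i, y i ^ α i‖ ≤ s ^ (∑ i, α i) * t ^ B := by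
  rw [norm_prod]
  calc ∏ i, ‖y i ^ α i‖ ≤ ∏ i, (s ^ α i * t ^ (a i * α i)) := by
        refine Finset.prod_le_prod (fun i _ => norm_nonneg _) fun i _ => ?_
        rw [norm_pow, pow_mul, ← mul_pow]
        exact pow_le_pow_left₀ (norm_nonneg _) (hy i) _
    _ = s ^ (∑ i, α i) * t ^ (∑ i, a i * α i) := by
        rw [Finset.prod_mul_distrib, Finset.prod_pow_eq_pow_sum, Finset.prod_pow_eq_pow_sum]
    _ ≤ _ := mul_le_mul_of_nonneg_left (pow_le_pow_of_le_one ht ht1 hB) (pow_nonneg hs _)

theorem eval_le (f : MvPolynomial ι ℂ) {s : ℝ} (hs : 0 ≤ s) (a : ι → ℕ) {B : ℕ}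
    (hB : ∀ α ∈ f.support, B ≤ ∑ i, a i * α i) :
    ∃ C : ℝ, 0 < C ∧ ∀ t : ℝ, 0 ≤ t → t ≤ 1 → ∀ y : ι → ℂ, (∀ i, ‖y i‖ ≤ s * t ^ a i) →
      ‖eval y f‖ ≤ C * t ^ B := by
  refine ⟨1 + ∑ α ∈ f.support, ‖coeff α f‖ * s ^ (∑ i, α i), ?_, fun t ht ht1 y hy => ?_⟩
  · have : 0 ≤ ∑ α ∈ f.support, ‖coeff α f‖ * s ^ (∑ i, α i) :=
      Finset.sum_nonneg fun α _ => by positivity
    linarith
  · rw [eval_eq']
    calc ‖∑ α ∈ f.support, coeff α f * ∏ i, y i ^ α i‖
        ≤ ∑ α ∈ f.support, ‖coeff α f‖ * (s ^ (∑ i, α i) * t ^ B) := by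
          refine (norm_sum_le _ _).trans (Finset.sum_le_sum fun α hα => ?_)
          rw [norm_mul]
          exact mul_le_mul_of_nonneg_left (mono_le hs ht ht1 a α (hB α hα) hy) (norm_nonneg _)
      _ = (∑ α ∈ f.support, ‖coeff α f‖ * s ^ (∑ i, α i)) * t ^ B := by
          rw [Finset.sum_mul]
          exact Finset.sum_congr rfl fun α _ => by ring
      _ ≤ _ := by
          refine mul_le_mul_of_nonneg_right ?_ (pow_nonneg ht _)
          linarith

/-- The volume of a polydisc. -/
theorem vol_poly (x : ι → ℂ) {s t : ℝ} (hs : 0 ≤ s) (ht : 0 ≤ t) (a : ι → ℕ) :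
    volume (Set.pi Set.univ fun i => Metric.ball (x i) (s * t ^ a i)) =
      ENNReal.ofReal ((s ^ 2 * Real.pi) ^ Fintype.card ι * t ^ (2 * ∑ i, a i)) := by
  rw [volume_pi_pi]
  have h1 : ∀ i, volume (Metric.ball (x i) (s * t ^ a i)) =
      ENNReal.ofReal ((s ^ 2 * Real.pi) * t ^ (2 * a i)) := by
    intro i
    rw [Complex.volume_ball, ← ENNReal.ofReal_pow (by positivity)]
    have h2 : ((NNReal.pi : NNReal) : ENNReal) = ENNReal.ofReal Real.pi := by
      rw [ENNReal.ofReal, ← NNReal.coe_real_pi, Real.toNNReal_coe]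
    rw [h2, ← ENNReal.ofReal_mul (by positivity)]
    congr 1
    ring
  simp only [h1]
  rw [← ENNReal.ofReal_prod_of_nonneg fun i _ => by positivity]
  congr 1
  rw [Finset.prod_mul_distrib, Finset.prod_const, Finset.card_univ, Finset.prod_pow_eq_pow_sum,
    Finset.mul_sum]

/-- A log canonical pair satisfies the inequalities for all monomial valuations. -/
theorem weights_of_lc {S : Set (Set ι)} {m : ℕ} (hm : 1 ≤ m) {f : MvPolynomial ι ℂ}
    (h : IsLogCanonical S m f) (a : ι → ℕ) (ha : {i | a i ≠ 0} ∈ S) :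
    ∃ α ∈ f.support, ∑ i, a i * α i ≤ m * ∑ i, a i := by
  classical
  by_contra hcon
  push Not at hcon
  set A := ∑ i, a i with hA
  let x : ι → ℂ := fun i => if a i = 0 then 1 else 0
  have hx : {i | x i = 0} ∈ S := by
    have : {i | x i = 0} = {i | a i ≠ 0} := by
      ext i
      simp only [x, Set.mem_ofPred_eq]
      split_ifs with h1 <;> simp [h1]
    rw [this]
    exact ha
  have hm0 : (0 : ℝ) < m := by exact_mod_cast hm
  rcases Nat.eq_zero_or_pos A with h0 | hpos
  · -- the polynomial is zero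
    have hall : ∀ i, a i = 0 := fun i => by
      have := Finset.sum_eq_zero_iff.1 (hA ▸ h0) i (Finset.mem_univ i)
      exact this
    have hf : f = 0 := by
      by_contra hf
      obtain ⟨α, hα⟩ := MvPolynomial.support_nonempty.2 hf
      have := hcon α hα
      simp [hall, h0] at this
    obtain ⟨r, hr, hfin⟩ := h x hx (1 / 2) (by norm_num)
    rw [hf] at hfin
    have hexp : -(2 * (1 / 2) / (m : ℝ)) < 0 := by
      rw [neg_lt_zero]
      positivity
    simp only [map_zero, enorm_zero, ENNReal.zero_rpow_of_neg hexp] at hfin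
    rw [lintegral_const, Measure.restrict_apply_univ, ENNReal.top_mul] at hfin
    · exact lt_irrefl _ hfin
    · exact (Metric.measure_ball_pos volume x hr).ne'
  · have hA0 : (0 : ℝ) < A := by exact_mod_cast hpos
    set c : ℝ := m * A / (m * A + 1) with hc
    have hc1 : c < 1 := by
      rw [hc, div_lt_one (by positivity)]
      linarith
    have hc0 : 0 < c := by positivity
    obtain ⟨r, hr, hfin⟩ := h x hx c hc1
    set s : ℝ := min r 1 with hs
    have hs0 : 0 < s := lt_min hr one_pos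
    obtain ⟨C, hC, hbound⟩ := eval_le f (s := 1 + s) (by linarith) a (B := m * A + 1)
      (fun α hα => hcon α hα)
    set p : ℝ := 2 * c / m with hp
    have hp0 : 0 < p := by positivity
    have hpB : p * ((m * A + 1 : ℕ) : ℝ) = 2 * A := by
      rw [hp, hc]
      push_cast
      field_simp
    let U : ℝ → Set (ι → ℂ) := fun t => Set.pi Set.univ fun i => Metric.ball (x i) (s * t ^ a i)
    have hUball : ∀ t : ℝ, 0 < t → t ≤ 1 → U t ⊆ Metric.ball x r := by
      intro t ht ht1 y hy
      rw [Metric.mem_ball, dist_pi_lt_iff hr]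
      intro i
      have h1 : dist (y i) (x i) < s * t ^ a i := hy i trivial
      have h2 : s * t ^ a i ≤ s * 1 :=
        mul_le_mul_of_nonneg_left (pow_le_one₀ ht.le ht1) hs0.le
      have h3 : s ≤ r := min_le_left _ _
      linarith
    have hlow : ∀ t : ℝ, 0 < t → t ≤ 1 →
        ENNReal.ofReal (C ^ (-p) * (s ^ 2 * Real.pi) ^ Fintype.card ι) ≤
          ∫⁻ y in U t, ‖eval y f‖ₑ ^ (-p) ∂(volume.restrict (Metric.ball x r)) := by
      intro t ht ht1
      rw [Measure.restrict_restrict_of_subset (hUball t ht ht1)]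
      have h1 : ∀ y ∈ U t, ENNReal.ofReal (C * t ^ (m * A + 1)) ^ (-p) ≤ ‖eval y f‖ₑ ^ (-p) := by
        intro y hy
        rw [ENNReal.rpow_neg, ENNReal.rpow_neg]
        refine ENNReal.inv_le_inv.2 (ENNReal.rpow_le_rpow ?_ hp0.le)
        rw [← ofReal_norm_eq_enorm]
        apply ENNReal.ofReal_le_ofReal
        apply hbound t ht.le ht1
        intro i
        have h2 : dist (y i) (x i) < s * t ^ a i := hy i trivial
        by_cases hai : a i = 0
        · have hx1 : x i = 1 := if_pos hai
          rw [hx1, hai, pow_zero, mul_one, dist_eq_norm] at h2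
          rw [hai, pow_zero, mul_one]
          have h3 : ‖y i‖ ≤ ‖y i - 1‖ + ‖(1 : ℂ)‖ := by
            simpa using norm_add_le (y i - 1) 1
          rw [norm_one] at h3
          linarith
        · have hx0 : x i = 0 := if_neg hai
          rw [hx0, dist_zero_right] at h2
          have h3 : 0 ≤ t ^ a i := by positivity
          nlinarith
      have hUm : MeasurableSet (U t) := MeasurableSet.univ_pi fun i => measurableSet_ball
      calc ENNReal.ofReal (C ^ (-p) * (s ^ 2 * Real.pi) ^ Fintype.card ι)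
          = ENNReal.ofReal (C * t ^ (m * A + 1)) ^ (-p) * volume (U t) := by
            rw [vol_poly x hs0.le ht.le a, ENNReal.ofReal_rpow_of_pos (by positivity),
              ← ENNReal.ofReal_mul (by positivity)]
            congr 1
            rw [Real.mul_rpow hC.le (by positivity), ← Real.rpow_natCast t (m * A + 1),
              ← Real.rpow_mul ht.le, mul_neg, mul_comm ((m * A + 1 : ℕ) : ℝ) p, hpB,
              ← hA, ← Real.rpow_natCast t (2 * A)]
            have h3 : t ^ (-(2 * (A : ℝ))) * t ^ (((2 * A : ℕ) : ℝ)) = 1 := by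
              rw [← Real.rpow_add ht]
              push_cast
              rw [neg_add_cancel, Real.rpow_zero]
            calc C ^ (-p) * (s ^ 2 * Real.pi) ^ Fintype.card ι
                = C ^ (-p) * (s ^ 2 * Real.pi) ^ Fintype.card ι *
                  (t ^ (-(2 * (A : ℝ))) * t ^ (((2 * A : ℕ) : ℝ))) := by rw [h3, mul_one]
              _ = _ := by ring
        _ = ∫⁻ _ in U t, ENNReal.ofReal (C * t ^ (m * A + 1)) ^ (-p) := by
            rw [lintegral_const, Measure.restrict_apply_univ]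
        _ ≤ _ := setLIntegral_mono' hUm h1
    -- the sets shrink
    have ht : Tendsto (fun k : ℕ => (1 / ((k : ℝ) + 1))) atTop (𝓝 0) :=
      tendsto_one_div_add_atTop_nhds_zero_nat
    have hvol : Tendsto ((volume.restrict (Metric.ball x r)) ∘ fun k : ℕ => U (1 / ((k : ℝ) + 1)))
        atTop (𝓝 0) := by
      have h1 : Tendsto (fun k : ℕ => ENNReal.ofReal ((s ^ 2 * Real.pi) ^ Fintype.card ι *
          (1 / ((k : ℝ) + 1)) ^ (2 * A))) atTop (𝓝 0) := by
        have h2 : Tendsto (fun k : ℕ => (s ^ 2 * Real.pi) ^ Fintype.card ι *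
            (1 / ((k : ℝ) + 1)) ^ (2 * A)) atTop (𝓝 ((s ^ 2 * Real.pi) ^ Fintype.card ι *
              0 ^ (2 * A))) := (ht.pow _).const_mul _
        rw [zero_pow (by omega), mul_zero] at h2
        have h3 := ENNReal.tendsto_ofReal h2
        rwa [ENNReal.ofReal_zero] at h3
      refine tendsto_of_tendsto_of_tendsto_of_le_of_le tendsto_const_nhds h1
        (fun k => bot_le) fun k => ?_
      simp only [Function.comp]
      refine (Measure.restrict_apply_le _ _).trans ?_
      rw [vol_poly x hs0.le (by positivity) a]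
    have hlim := tendsto_setLIntegral_zero (μ := volume.restrict (Metric.ball x r))
      (f := fun y => ‖eval y f‖ₑ ^ (-p)) hfin.ne hvol
    have hge : ENNReal.ofReal (C ^ (-p) * (s ^ 2 * Real.pi) ^ Fintype.card ι) ≤ 0 := by
      refine ge_of_tendsto' hlim fun k => hlow _ (by positivity) ?_
      rw [div_le_one (by positivity)]
      have : (0 : ℝ) ≤ k := Nat.cast_nonneg k
      linarith
    rw [nonpos_iff_eq_zero, ENNReal.ofReal_eq_zero] at hge
    have : 0 < C ^ (-p) * (s ^ 2 * Real.pi) ^ Fintype.card ι := by positivity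
    linarith

end Q47.TB
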