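import Pool.Agent.Q47.TB.Coef
import Pool.Agent.Q47.TB.Lc

/-!
# Abundance for pairs on toric bundles over torus quotients
-/

set_option autoImplicit false

namespace Q47.TB

open Pool.Agent.W594.SYZ2 Pool.Agent.W594.SYZ2.TQ Pool.Agent.TH735.AQ MvPolynomial Q47.EB Q47.KN
open Q47.MM (nef_of_section)

variable {V : Type*} [NormedAddCommGroup V] [NormedSpace ℂ V] [FiniteDimensional ℂ V]
  {Γ : Subgroup (V ≃ᵃ[ℂ] V)} {ι : Type*} [Fintype ι] {n : ℕ}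

/-- The line bundle `tw L c K β` on the base is semiample. -/
theorem gg_tw (hΓ : IsTorusQuotient Γ) {ρ : V → ℂ} (hρ : IsRamification Γ ρ)
    {L : LineBundle Γ} {c : ι → LineBundle Γ} {H : V → V → ℂ} {Hc : ι → V → V → ℂ}
    (hL : IsChernForm L H) (hc : ∀ i, IsChernForm (c i) (Hc i)) {K m : ℕ} {β : ι → ℕ}
    {P : V → ℂ} (hP : Differentiable ℂ P) (hP0 : ∃ v, P v ≠ 0)
    (hPe : Pool.Agent.TH735.AQ.IsLogPluricanonical (tw L c K β) m ρ P)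
    (hn : IsNefForm fun v w => H v w - ∑ i, (β i : ℂ) * Hc i v w) :
    GG ((tw L c K β).pow (expo (Module.finrank ℂ V))) := by
  obtain ⟨hH, F, hF, hFe⟩ := chern_tw hL hc K β
  refine gg_of_pair hΓ hH ⟨hF, hFe⟩ hρ hP hP0 hPe fun v => ?_
  have h1 := hn v
  have h2 : ((K : ℂ) * (H v v - ∑ i, (β i : ℂ) * Hc i v v)).re
      = (K : ℝ) * (H v v - ∑ i, (β i : ℂ) * Hc i v v).re := by
    have : ((K : ℕ) : ℂ) = ((K : ℝ) : ℂ) := by push_cast; rfl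
    rw [this, Complex.re_ofReal_mul]
  rw [h2]
  exact mul_nonneg (Nat.cast_nonneg K) h1

omit [FiniteDimensional ℂ V] in
/-- Without reflections the boundary divisor on the base gives a section of a power. -/
theorem section_of_pair (hΓ : IsTorusQuotient Γ) {ρ : V → ℂ} (hρ : Differentiable ℂ ρ)
    (hρ0 : ∀ v, ρ v ≠ 0) {M : LineBundle Γ} {m : ℕ} {P : V → ℂ} (hP : Differentiable ℂ P)
    (hPe : Pool.Agent.TH735.AQ.IsLogPluricanonical M m ρ P) :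
    (M.pow (Nat.card (Lin Γ))).IsSection fun v => (P v * (ρ v ^ m)⁻¹) ^ Nat.card (Lin Γ) := by
  have := finite_Lin hΓ
  have hρm : Differentiable ℂ fun v => (ρ v ^ m)⁻¹ :=
    fun v => ((hρ.pow m) v).inv (pow_ne_zero _ (hρ0 v))
  refine ⟨(hP.mul hρm).pow _, fun γ v => ?_⟩
  have h1 := hPe γ v
  set D := LinearMap.det ((γ : V ≃ᵃ[ℂ] V).linear : V →ₗ[ℂ] V) with hD
  have hdet : D ^ Nat.card (Lin Γ) = 1 := by
    have hg : (γ : V ≃ᵃ[ℂ] V).linear ∈ Lin Γ := mem_Lin.2 ⟨γ, γ.2, rfl⟩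
    have h2 : (⟨(γ : V ≃ᵃ[ℂ] V).linear, hg⟩ : Lin Γ) ^ Nat.card (Lin Γ) = 1 := pow_card_eq_one'
    have h3 : (γ : V ≃ᵃ[ℂ] V).linear ^ Nat.card (Lin Γ) = 1 := congrArg Subtype.val h2
    have h4 : (((γ : V ≃ᵃ[ℂ] V).linear ^ Nat.card (Lin Γ) : V ≃ₗ[ℂ] V) : V →ₗ[ℂ] V)
        = ((γ : V ≃ᵃ[ℂ] V).linear : V →ₗ[ℂ] V) ^ Nat.card (Lin Γ) := by
      generalize Nat.card (Lin Γ) = k
      induction k with
      | zero => rfl
      | succ k ih =>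
        rw [pow_succ, pow_succ, ← ih]
        rfl
    rw [hD, ← map_pow, ← h4, h3]
    exact LinearMap.det_id
  have n1 := pow_ne_zero m (hρ0 v)
  have n2 := pow_ne_zero m (hρ0 ((γ : V ≃ᵃ[ℂ] V) v))
  have h5 : P ((γ : V ≃ᵃ[ℂ] V) v) * (ρ ((γ : V ≃ᵃ[ℂ] V) v) ^ m)⁻¹
      = M.e γ v * D ^ m * (P v * (ρ v ^ m)⁻¹) := by
    field_simp
    linear_combination h1
  change (P ((γ : V ≃ᵃ[ℂ] V) v) * (ρ ((γ : V ≃ᵃ[ℂ] V) v) ^ m)⁻¹) ^ Nat.card (Lin Γ)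
    = M.e γ v ^ Nat.card (Lin Γ) * _
  rw [h5, mul_pow, mul_pow, ← pow_mul, mul_comm m, pow_mul, hdet, one_pow, mul_one]

theorem nef_of_pair (hΓ : IsTorusQuotient Γ) {ρ : V → ℂ} (hρ : Differentiable ℂ ρ)
    (hρ0 : ∀ v, ρ v ≠ 0)
    {L : LineBundle Γ} {c : ι → LineBundle Γ} {H : V → V → ℂ} {Hc : ι → V → V → ℂ}
    (hL : IsChernForm L H) (hc : ∀ i, IsChernForm (c i) (Hc i)) {K m : ℕ} (hK : 1 ≤ K)
    {β : ι → ℕ} {P : V → ℂ} (hP : Differentiable ℂ P) (hP0 : ∃ v, P v ≠ 0)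
    (hPe : Pool.Agent.TH735.AQ.IsLogPluricanonical (tw L c K β) m ρ P) :
    IsNefForm fun v w => H v w - ∑ i, (β i : ℂ) * Hc i v w := by
  have := finite_Lin hΓ
  have hs := section_of_pair hΓ hρ hρ0 hP hPe
  obtain ⟨v₀, hv₀⟩ := hP0
  have hn := nef_of_section hΓ (chern_pow (chern_tw hL hc K β) _) hs
    ⟨v₀, pow_ne_zero _ (mul_ne_zero hv₀ (inv_ne_zero (pow_ne_zero _ (hρ0 v₀))))⟩
  intro v
  have h1 := hn v
  have h2 : (((Nat.card (Lin Γ) : ℕ) : ℂ) * ((K : ℂ) *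
      (H v v - ∑ i, (β i : ℂ) * Hc i v v))).re
      = ((Nat.card (Lin Γ) : ℝ) * K) * (H v v - ∑ i, (β i : ℂ) * Hc i v v).re := by
    have e1 : ((K : ℕ) : ℂ) = ((K : ℝ) : ℂ) := by push_cast; rfl
    have e2 : ((Nat.card (Lin Γ) : ℕ) : ℂ) = ((Nat.card (Lin Γ) : ℝ) : ℂ) := by push_cast; rfl
    rw [e1, e2, ← mul_assoc, ← Complex.ofReal_mul, Complex.re_ofReal_mul]
  rw [h2] at h1
  have hc0 : (0 : ℝ) < (Nat.card (Lin Γ) : ℝ) * K := by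
    have h3 : (0 : ℝ) < Nat.card (Lin Γ) := by exact_mod_cast Nat.card_pos
    have h4 : (0 : ℝ) < K := by exact_mod_cast hK
    positivity
  exact nonneg_of_mul_nonneg_right h1 hc0

omit [FiniteDimensional ℂ V] in
/-- From the line bundles on the base to the line bundle on the toric bundle. -/
theorem semiample_of_gg {u : ι → Fin n → ℤ} {S : Set (Set ι)} {L : LineBundle Γ}
    {c : ι → LineBundle Γ} {d : ι → ℤ} {E : ℕ} (hE : 1 ≤ E)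
    (h : ∀ σ ∈ S, ∃ β : ι → ℕ, (∀ i ∈ σ, β i = 0) ∧ LinEquiv u (fun i => (β i : ℤ)) d ∧
      ∃ K : ℕ, 1 ≤ K ∧ GG ((tw L c K β).pow E)) :
    ∃ N : ℕ, 1 ≤ N ∧ ∀ (v : V) (x : ι → ℂ), {i | x i = 0} ∈ S →
      ∃ G, IsSection u c (fun i => (N : ℤ) * d i) (fun γ v => L.e γ v ^ N) G ∧
        eval x (G v) ≠ 0 := by
  classical
  have hfinS : Fintype S := Fintype.ofFinite S
  choose β hβ0 hβ K hK hg using fun σ : S => h σ σ.2
  refine ⟨(∏ σ, K σ) * E, Nat.mul_pos (Finset.prod_pos fun σ _ => hK σ) hE, fun v x hx => ?_⟩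
  set σ : S := ⟨_, hx⟩ with hσ
  obtain ⟨R, hR⟩ : K σ ∣ ∏ σ, K σ := Finset.dvd_prod_of_mem K (Finset.mem_univ σ)
  obtain ⟨s, hs, hs0⟩ := (hg σ).mul (Dvd.intro R rfl) v
  have h1 := isSection_monomial (hβ σ) hs
  have h2 : K σ * (E * R) = (∏ σ, K σ) * E := by rw [hR]; ring
  refine ⟨_, by rw [← h2]; exact h1, ?_⟩
  rw [eval_monomial, Finsupp.prod_fintype _ _ fun i => pow_zero _]
  refine mul_ne_zero hs0 (Finset.prod_ne_zero_iff.2 fun i _ => ?_)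
  simp only [Finsupp.equivFunOnFinite_symm_apply_apply]
  by_cases hi : x i = 0
  · have : β σ i = 0 := hβ0 σ i hi
    rw [this, mul_zero, pow_zero]
    exact one_ne_zero
  · exact pow_ne_zero _ hi

/-- Abundance for pairs on toric bundles over torus quotients. -/
theorem abundance (hΓ : IsTorusQuotient Γ) {ρ : V → ℂ} (hρ : IsRamification Γ ρ)
    {u : ι → Fin n → ℤ} {S : Set (Set ι)} (hS : IsSmoothFan u S)
    {c : ι → LineBundle Γ} {Hc : ι → V → V → ℂ} (hc : ∀ i, IsChernForm (c i) (Hc i))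
    {m : ℕ} (hm : 1 ≤ m) {d : ι → ℤ} {F : V → MvPolynomial ι ℂ} {L : LineBundle Γ}
    {H : V → V → ℂ} (hL : IsChernForm L H) (hF : IsLogPluricanonical u c m ρ d F L)
    {v₀ : V} (hlc : IsLogCanonical S m (F v₀)) (hnef : IsNef u S Hc (fun i => d i - m) H) :
    ∃ N : ℕ, 1 ≤ N ∧ ∀ (v : V) (x : ι → ℂ), {i | x i = 0} ∈ S →
      ∃ G, IsSection u c (fun i => (N : ℤ) * (d i - m)) (fun γ v => L.e γ v ^ N) G ∧
        eval x (G v) ≠ 0 := by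
  refine semiample_of_gg (expo_pos (Module.finrank ℂ V)) fun σ hσ => ?_
  obtain ⟨β, hβ0, hβ, hn⟩ := hnef σ hσ
  obtain ⟨K, hK, P, hP, hP0, hPe⟩ := exists_base_pair hS hF (F v₀).support
    (fun α hα => ⟨v₀, mem_support_iff.1 hα⟩) (weights_of_lc hm hlc) hβ
  exact ⟨β, hβ0, hβ, K, hK, gg_tw hΓ hρ hL hc hP hP0 hPe hn⟩

/-- Over a base without reflections nefness on the fibres suffices. -/
theorem abundance_no_mirror (hΓ : IsTorusQuotient Γ) {ρ : V → ℂ} (hρ : IsRamification Γ ρ)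
    (hρ0 : ∀ v, ¬ OnMirror Γ v)
    {u : ι → Fin n → ℤ} {S : Set (Set ι)} (hS : IsSmoothFan u S)
    {c : ι → LineBundle Γ} {Hc : ι → V → V → ℂ} (hc : ∀ i, IsChernForm (c i) (Hc i))
    {m : ℕ} {d : ι → ℤ} {F : V → MvPolynomial ι ℂ} {L : LineBundle Γ}
    {H : V → V → ℂ} (hL : IsChernForm L H) (hF : IsLogPluricanonical u c m ρ d F L)
    (T : Finset (ι →₀ ℕ)) (hT : ∀ α ∈ T, ∃ v, coeff α (F v) ≠ 0)
    (hw : ∀ a : ι → ℕ, {i | a i ≠ 0} ∈ S → ∃ α ∈ T, ∑ i, a i * α i ≤ m * ∑ i, a i)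
    (hnef : IsFibreNef u S fun i => d i - m) :
    ∃ N : ℕ, 1 ≤ N ∧ ∀ (v : V) (x : ι → ℂ), {i | x i = 0} ∈ S →
      ∃ G, IsSection u c (fun i => (N : ℤ) * (d i - m)) (fun γ v => L.e γ v ^ N) G ∧
        eval x (G v) ≠ 0 := by
  have hρ1 : ∀ v, ρ v ≠ 0 := fun v h => hρ0 v ((hρ.zero_iff v).1 h)
  refine semiample_of_gg (expo_pos (Module.finrank ℂ V)) fun σ hσ => ?_
  obtain ⟨β, hβ0, hβ⟩ := hnef σ hσ
  obtain ⟨K, hK, P, hP, hP0, hPe⟩ := exists_base_pair hS hF T hT hw hβ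
  exact ⟨β, hβ0, hβ, K, hK, gg_tw hΓ hρ hL hc hP hP0 hPe
    (nef_of_pair hΓ hρ.holo hρ1 hL hc hK hP hP0 hPe)⟩

end Q47.TB
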