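import Pool.Agent.TH735.AQ.MirDefs

/-!
# Toric bundles over quotients of complex tori: definitions

Let `X = V / Γ` be the quotient of a complex torus by a finite group, let `c_i` be line bundles on
`X`, and let `u_i` be the rays of a smooth complete fan in `ℤ^n` (`i ∈ ι`). The toric bundle
`Y → X` is the quotient of `{(v, x) ∈ V × ℂ^ι | {i | x_i = 0} is a cone}` by the action
`γ (v, x) = (γ v, (c_i(γ, v) x_i)_i)` of `Γ` and by the group `G` of all `t ∈ (ℂ^*)^ι` with
`∏ t_i ^ (u_i)_k = 1` for all `k`, which acts on the Cox coordinates `x_i`. All fibres are isomorphic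
to the toric variety of the fan. (For the fan of the projective space, `Y` is the projective
bundle of a direct sum of line bundles.)
-/

set_option autoImplicit false

namespace Q47.TB

open Pool.Agent.W594.SYZ2 Pool.Agent.TH735.AQ MvPolynomial

variable {V : Type*} [NormedAddCommGroup V] [NormedSpace ℂ V] {Γ : Subgroup (V ≃ᵃ[ℂ] V)}
  {ι : Type*} [Fintype ι] {n : ℕ}

/-- The vectors `u i` are the rays of a smooth complete fan in `ℤ^n`, and `S` is the set of the sets
`σ` such that the vectors `u i`, `i ∈ σ`, span a cone of the fan: each vector of `ℤ^n` is in exactly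
one way a sum of multiples `a i • u i`, `a i ∈ ℕ`, such that the `u i` with `a i ≠ 0` span a cone. -/
structure IsSmoothFan (u : ι → Fin n → ℤ) (S : Set (Set ι)) : Prop where
  ray : ∀ i, {i} ∈ S
  face : ∀ σ ∈ S, ∀ τ ⊆ σ, τ ∈ S
  rep : ∀ w : Fin n → ℤ, ∃! a : ι → ℕ, {i | a i ≠ 0} ∈ S ∧ ∀ k, ∑ i, (a i : ℤ) * u i k = w k

/-- The divisors `∑ α_i D_i` and `∑ β_i D_i` on the toric variety are linearly equivalent, where
`D_i` is the divisor `x_i = 0`. -/
def LinEquiv (u : ι → Fin n → ℤ) (α β : ι → ℤ) : Prop :=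
  ∃ m : Fin n → ℤ, ∀ i, α i = β i + ∑ k, m k * u i k

/-- `F` is a section of the line bundle `O_Y(d; e)` on `Y`: a polynomial `F(v, x)` in the Cox
coordinates `x`, with entire coefficients, homogeneous of the class of `∑ d_i D_i`, with
`F(γ v, c(γ, v) x) = e(γ, v) F(v, x)`. -/
structure IsSection (u : ι → Fin n → ℤ) (c : ι → LineBundle Γ) (d : ι → ℤ) (e : Γ → V → ℂ)
    (F : V → MvPolynomial ι ℂ) : Prop where
  holo : ∀ α, Differentiable ℂ fun v => (F v).coeff α
  deg : ∀ v, ∀ α ∈ (F v).support, LinEquiv u (fun i => (α i : ℤ)) d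
  eq : ∀ (γ : Γ) (v : V) (x : ι → ℂ),
    eval (fun i => (c i).e γ v * x i) (F ((γ : V ≃ᵃ[ℂ] V) v)) = e γ v * eval x (F v)

/-- `F` defines the effective divisor `m Δ` on `Y` and `L` gives the line bundle
`O_Y(m (K_Y + Δ)) = O_Y(d - m (1, ..., 1); L)`: here `F(v, x)` is a polynomial in the Cox coordinates
with entire coefficients, homogeneous of the class of `∑ d_i D_i`, and for a local section `G` of
`O_Y(d - m (1, ..., 1); L)` the `m`-canonical form
`G ρ ^ m / F (dv ∧ ω) ^ m` is invariant under `Γ` and `G`, where `ω` is the form with values in the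
canonical bundle of the toric variety, homogeneous of the class of `∑ D_i`. (`ρ` defines the
ramification divisor of `V → X`.) -/
structure IsLogPluricanonical (u : ι → Fin n → ℤ) (c : ι → LineBundle Γ) (m : ℕ) (ρ : V → ℂ)
    (d : ι → ℤ) (F : V → MvPolynomial ι ℂ) (L : LineBundle Γ) : Prop where
  holo : ∀ α, Differentiable ℂ fun v => (F v).coeff α
  deg : ∀ v, ∀ α ∈ (F v).support, LinEquiv u (fun i => (α i : ℤ)) d
  eq : ∀ (γ : Γ) (v : V) (x : ι → ℂ),
    eval (fun i => (c i).e γ v * x i) (F ((γ : V ≃ᵃ[ℂ] V) v)) * ρ v ^ m =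
      L.e γ v * (LinearMap.det ((γ : V ≃ᵃ[ℂ] V).linear : V →ₗ[ℂ] V) * ∏ i, (c i).e γ v) ^ m *
        eval x (F v) * ρ ((γ : V ≃ᵃ[ℂ] V) v) ^ m

/-- The pair formed by the toric variety and the divisor `(1 / m) div f` is log canonical: for all
`c < 1` the function `|f| ^ (-2 c / m)` is locally integrable on the set of the Cox coordinates `x`
of points. -/
def IsLogCanonical (S : Set (Set ι)) (m : ℕ) (f : MvPolynomial ι ℂ) : Prop :=
  ∀ x : ι → ℂ, {i | x i = 0} ∈ S → ∀ c : ℝ, c < 1 →
    ∃ r > 0, ∫⁻ y in Metric.ball x r, ‖eval y f‖ₑ ^ (-(2 * c / m)) < ⊤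

/-- The line bundle `O(d)` on the toric variety is nef, that is, generated by global sections: for
each cone `σ` the class of `∑ d_i D_i` contains an effective divisor `∑ β_i D_i` with `β_i = 0` for
`i ∈ σ`. -/
def IsFibreNef (u : ι → Fin n → ℤ) (S : Set (Set ι)) (d : ι → ℤ) : Prop :=
  ∀ σ ∈ S, ∃ β : ι → ℕ, (∀ i ∈ σ, β i = 0) ∧ LinEquiv u (fun i => (β i : ℤ)) d

/-- The line bundle `O_Y(d; L)` is nef on the fibres of `Y → X` and on the sections `X → Y` given by
the maximal cones `σ` (the loci `x_i = 0`, `i ∈ σ`): the class of `∑ d_i D_i` contains an effective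
divisor `∑ β_i D_i` with `β_i = 0` for `i ∈ σ`, and the restriction `L ⊗ ∏ c_i ^ (-β_i)` of
`O_Y(d; L)` to the section is nef. Here `H` and `Hc i` are the Chern forms of `L` and `c i`. -/
def IsNef (u : ι → Fin n → ℤ) (S : Set (Set ι)) (Hc : ι → V → V → ℂ) (d : ι → ℤ)
    (H : V → V → ℂ) : Prop :=
  ∀ σ ∈ S, ∃ β : ι → ℕ, (∀ i ∈ σ, β i = 0) ∧ LinEquiv u (fun i => (β i : ℤ)) d ∧
    IsNefForm fun v w => H v w - ∑ i, (β i : ℂ) * Hc i v w

/-- The divisors `F_j = 0` on `Y` are smooth and have normal crossings: at each point `(v, x)` of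
`Y` the differentials of those `F_j` which vanish at the point are linearly independent. (Here
`V × {x | {i | x_i = 0} is a cone} → Y` is a submersion.) -/
def IsNormalCrossing (S : Set (Set ι)) {k : ℕ} (F : Fin k → V → MvPolynomial ι ℂ) : Prop :=
  ∀ (v : V) (x : ι → ℂ), {i | x i = 0} ∈ S →
    LinearIndependent ℂ fun j : {j : Fin k // eval x (F j v) = 0} =>
      fderiv ℂ (fun p : V × (ι → ℂ) => eval p.2 (F j p.1)) (v, x)

end Q47.TB
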