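import Pool.Agent.Q47.TB.Main

/-!
# Log pluricanonical divisors are nef in the directions fixed by the reflections
-/

set_option autoImplicit false

namespace Q47.TB

open Pool.Agent.W594.SYZ2 Pool.Agent.W594.SYZ2.TQ Pool.Agent.TH735.AQ MvPolynomial Q47.EB Q47.KN
open Q47.MM (nef_of_section IsFixed fixSpace fix_span zero_of_decay not_onMirror_add)

variable {V : Type*} [NormedAddCommGroup V] [NormedSpace ℂ V] [FiniteDimensional ℂ V]
  {Γ : Subgroup (V ≃ᵃ[ℂ] V)}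

/-- The Chern form of a log pluricanonical divisor is nonnegative on the fixed vectors. -/
theorem pair_fixed (hΓ : IsTorusQuotient Γ) {ρ P : V → ℂ} {m : ℕ}
    {K : LineBundle Γ} {H : V → V → ℂ} {F : V → ℂ} (hρ : IsRamification Γ ρ)
    (hP : Differentiable ℂ P) (hP0 : ∃ v, P v ≠ 0)
    (hK : Pool.Agent.TH735.AQ.IsLogPluricanonical K m ρ P) (hH : IsHermitian H)
    (hpot : IsPot K H F) {x : V} (hx : IsFixed Γ x) : 0 ≤ (H x x).re := by
  have hF := hpot.1
  obtain ⟨v₀, hPv₀, hv₀⟩ := exists_common hP hρ.holo hP0 (ram_ne_zero hρ)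
  have hmir : ¬ OnMirror Γ v₀ := fun h => hv₀ ((hρ.zero_iff v₀).2 h)
  have hρ0 : ∀ u, IsFixed Γ u → ρ (v₀ + u) ^ m ≠ 0 := by
    intro u hu
    refine pow_ne_zero _ fun h => ?_
    exact not_onMirror_add hΓ hmir hu ((hρ.zero_iff _).1 h)
  let g : V → ℂ := fun v => P v * Complex.exp (-F v)
  have hg : Differentiable ℂ g := hP.mul hF.neg.cexp
  have hgb : ∀ (b : V) (hb : b ∈ latt Γ) (v : V),
      g (b + v) * ρ v ^ m = Pool.Agent.W594.SYZ2.TQ.tw K F (tr b hb) v * g v * ρ (b + v) ^ m := by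
    intro b hb v
    have h1 := hK (tr b hb) v
    have h2 : LinearMap.det (((tr b hb : Γ) : V ≃ᵃ[ℂ] V).linear : V →ₗ[ℂ] V) = 1 := by
      have h3 : (((tr b hb : Γ) : V ≃ᵃ[ℂ] V).linear : V →ₗ[ℂ] V) = LinearMap.id := by
        ext w
        exact tr_linear b hb w
      rw [h3, LinearMap.det_id]
    rw [h2, one_pow, mul_one, tr_apply] at h1
    simp only [g, Pool.Agent.W594.SYZ2.TQ.tw, tr_apply]
    rw [Complex.exp_sub, Complex.exp_neg, Complex.exp_neg]
    have e1 := Complex.exp_ne_zero (F (b + v))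
    have e2 := Complex.exp_ne_zero (F v)
    field_simp
    linear_combination h1
  let U := fixSpace Γ
  let ψ : U → ℝ := fun u => ‖g (v₀ + u)‖ ^ 2 * ((‖ρ (v₀ + u) ^ m‖ ^ 2)⁻¹ *
    Real.exp (-(Real.pi * (H (v₀ + u) (v₀ + u)).re)))
  have hUc : Continuous fun u : U => v₀ + (u : V) := continuous_const.add continuous_subtype_val
  have hψ : Continuous ψ := by
    have h1 : Continuous fun u : U => ‖ρ (v₀ + u) ^ m‖ ^ 2 :=
      (((hρ.holo.continuous.comp hUc).pow m).norm).pow 2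
    refine (((hg.continuous.comp hUc).norm).pow 2).mul ((h1.inv₀ fun u => ?_).mul
      (Real.continuous_exp.comp
        (((diag_continuous hH).comp hUc).const_mul Real.pi).neg))
    exact pow_ne_zero _ (norm_ne_zero_iff.2 (hρ0 u u.2))
  have hψp : ∀ b ∈ (latt Γ).comap (fixSpace Γ).subtype.toAddMonoidHom, ∀ u, ψ (b + u) = ψ u := by
    intro b hb u
    have e0 : v₀ + ((b + u : U) : V) = (b : V) + (v₀ + u) := by
      rw [Submodule.coe_add]
      abel
    have hb' : (b : V) ∈ latt Γ := hb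
    have h1 := hgb b hb' (v₀ + u)
    have n1 : ‖ρ (v₀ + u) ^ m‖ ≠ 0 := norm_ne_zero_iff.2 (hρ0 u u.2)
    have n2 : ‖ρ ((b : V) + (v₀ + u)) ^ m‖ ≠ 0 := by
      rw [← e0]
      exact norm_ne_zero_iff.2 (hρ0 _ (b + u).2)
    have h2 : ‖g ((b : V) + (v₀ + u))‖ ^ 2 * ‖ρ (v₀ + u) ^ m‖ ^ 2
        = ‖Pool.Agent.W594.SYZ2.TQ.tw K F (tr b hb') (v₀ + u)‖ ^ 2 * ‖g (v₀ + u)‖ ^ 2 *
          ‖ρ ((b : V) + (v₀ + u)) ^ m‖ ^ 2 := by
      rw [← mul_pow, ← norm_mul, h1, norm_mul, norm_mul, mul_pow, mul_pow]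
    rw [tw_norm hpot, tr_apply, mul_sub, Real.exp_sub] at h2
    simp only [ψ]
    rw [e0, Real.exp_neg, Real.exp_neg]
    have e1 := (Real.exp_pos (Real.pi * (H (v₀ + u) (v₀ + u)).re)).ne'
    have e2 := (Real.exp_pos (Real.pi * (H ((b : V) + (v₀ + u)) ((b : V) + (v₀ + u))).re)).ne'
    field_simp at h2 ⊢
    linear_combination h2
  have : ProperSpace U := FiniteDimensional.proper ℂ U
  obtain ⟨C, hC⟩ := cobounded ((latt Γ).comap (fixSpace Γ).subtype.toAddMonoidHom) (fix_span hΓ)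
  have hKc : IsCompact (Metric.closedBall (0 : U) C) := isCompact_closedBall _ _
  obtain ⟨b0, hb0, hbC0⟩ := hC 0
  have hne : (Metric.closedBall (0 : U) C).Nonempty :=
    ⟨b0 + 0, by rwa [mem_closedBall_zero_iff]⟩
  obtain ⟨u2, hu2, hmax⟩ := hKc.exists_isMaxOn hne hψ.continuousOn
  have hup : ∀ u, ψ u ≤ ψ u2 := by
    intro u
    obtain ⟨b, hb, hbC⟩ := hC u
    rw [← hψp b hb u]
    exact hmax (by rwa [mem_closedBall_zero_iff])
  have hψ0 : 0 ≤ ψ u2 := by simp only [ψ]; positivity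
  obtain ⟨R, hR⟩ : ∃ R, R = ψ u2 := ⟨_, rfl⟩
  rw [← hR] at hψ0
  simp only [← hR] at hup
  by_contra hneg
  push Not at hneg
  have hzx : ∀ z : ℂ, IsFixed Γ (z • x) := fun z => U.smul_mem z hx
  have hline : Differentiable ℂ fun z : ℂ => v₀ + z • x :=
    (differentiable_id.smul_const x).const_add v₀
  let f : ℂ → ℂ := fun z => g (v₀ + z • x) * (ρ (v₀ + z • x) ^ m)⁻¹ *
    Complex.exp (-(Real.pi * (z * H x v₀)))
  have hf : Differentiable ℂ f := by
    have h1 : Differentiable ℂ fun z : ℂ => (ρ (v₀ + z • x) ^ m)⁻¹ :=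
      Differentiable.inv ((hρ.holo.comp hline).pow m) fun z => hρ0 _ (hzx z)
    exact ((hg.comp hline).mul h1).mul
      (((differentiable_id.mul_const (H x v₀)).const_mul (Real.pi : ℂ)).neg).cexp
  have h0 := zero_of_decay hf (R := R * Real.exp (Real.pi * (H v₀ v₀).re))
    (c := Real.pi * (-(H x x).re)) (by positivity) (mul_pos Real.pi_pos (neg_pos.2 hneg)) (by
      intro z
      have e1 : (H (v₀ + z • x) (v₀ + z • x)).re
          = (H v₀ v₀).re + ‖z‖ ^ 2 * (H x x).re + 2 * (z * H x v₀).re := by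
        rw [add_comm v₀, h_diag_add hH, h_diag_smul hH, hH.smul_left]
        ring
      have e2 : ‖Complex.exp (-(Real.pi * (z * H x v₀)))‖ ^ 2
          = Real.exp (-(2 * (Real.pi * (z * H x v₀).re))) := by
        rw [Complex.norm_exp, Complex.neg_re, Complex.re_ofReal_mul, ← Real.exp_nat_mul]
        congr 1
        push_cast
        ring
      have e3 : ‖f z‖ ^ 2
          = ‖g (v₀ + z • x)‖ ^ 2 * (‖ρ (v₀ + z • x) ^ m‖ ^ 2)⁻¹ *
            Real.exp (-(2 * (Real.pi * (z * H x v₀).re))) := by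
        rw [← e2, ← inv_pow, ← norm_inv, ← mul_pow, ← mul_pow, ← norm_mul, ← norm_mul]
      have e5 := hup ⟨z • x, hzx z⟩
      have e6 : ‖g (v₀ + z • x)‖ ^ 2 * (‖ρ (v₀ + z • x) ^ m‖ ^ 2)⁻¹ *
          Real.exp (-(Real.pi * (H (v₀ + z • x) (v₀ + z • x)).re)) ≤ R := by
        refine le_trans (le_of_eq ?_) e5
        simp only [ψ]
        ring
      have e4 : ‖g (v₀ + z • x)‖ ^ 2 * (‖ρ (v₀ + z • x) ^ m‖ ^ 2)⁻¹ ≤ R * Real.exp (Real.pi *
          (H (v₀ + z • x) (v₀ + z • x)).re) := by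
        rwa [Real.exp_neg, ← div_eq_mul_inv, div_le_iff₀ (Real.exp_pos _)] at e6
      rw [e3]
      refine (mul_le_mul_of_nonneg_right e4 (Real.exp_pos _).le).trans (le_of_eq ?_)
      rw [mul_assoc, mul_assoc, ← Real.exp_add, ← Real.exp_add, e1]
      congr 2
      ring) 0
  have h2 : g (v₀ + (0 : ℂ) • x) * (ρ (v₀ + (0 : ℂ) • x) ^ m)⁻¹ *
      Complex.exp (-(Real.pi * (0 * H x v₀))) = 0 := h0
  rw [zero_smul, add_zero] at h2
  have h3 := (mul_eq_zero.1 h2).resolve_right (Complex.exp_ne_zero _)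
  refine (mul_ne_zero (mul_ne_zero hPv₀ (Complex.exp_ne_zero _)) (inv_ne_zero ?_)) h3
  exact pow_ne_zero _ hv₀

end Q47.TB
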