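import Pool.Agent.Q47.TB.Psef

/-!
# Nonvanishing on toric bundles over torus quotients
-/

set_option autoImplicit false

namespace Q47.TB

open Pool.Agent.W594.SYZ2 Pool.Agent.W594.SYZ2.TQ Pool.Agent.TH735.AQ MvPolynomial Q47.EB Q47.KN
open Q47.MM (nef_of_section Inv inv_of_chern roots exists_tests Refls nef_of_roots cone_decomp)

variable {V : Type*} [NormedAddCommGroup V] [NormedSpace ℂ V] {Γ : Subgroup (V ≃ᵃ[ℂ] V)}
  {ι : Type*} [Fintype ι] {n : ℕ}

/-- From real classes to integral classes. -/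
theorem exists_int [FiniteDimensional ℂ V] (hΓ : IsTorusQuotient Γ) {u : ι → Fin n → ℤ}
    {Hc : ι → V → V → ℂ} {c : ι → LineBundle Γ}
    (hc : ∀ i, IsChernForm (c i) (Hc i)) {L : LineBundle Γ} {H : V → V → ℂ}
    (hL : IsChernForm L H) {d : ι → ℤ} {β : ι → ℝ} {q : Fin n → ℝ} (hβ0 : ∀ i, 0 ≤ β i)
    (hβ : ∀ i, β i = d i + ∑ k, q k * u i k)
    (hn : IsNefForm fun v w => H v w - ∑ i, (β i : ℂ) * Hc i v w) :
    ∃ (K : ℕ) (b : ι → ℕ), 1 ≤ K ∧ LinEquiv u (fun i => (b i : ℤ)) (fun i => K * d i) ∧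
      ∀ a ∈ roots Γ, 0 ≤ ((K : ℂ) * H a a - ∑ i, (b i : ℂ) * Hc i a a).re := by
  classical
  have := finite_Lin hΓ
  obtain ⟨x, y, hx, hy, ht⟩ := exists_tests hΓ
  have hint : ∀ {L : LineBundle Γ} {H : V → V → ℂ}, IsChernForm L H → ∀ g : Refls Γ,
      ∃ t : ℤ, (H (x g) (y g)).im = t := by
    intro L H hc g
    obtain ⟨hH, F, hF, hFe⟩ := hc
    exact im_int hH ⟨hF, hFe⟩ (hx g) (hy g)
  choose tL htL using hint hL
  choose tc htc using fun i => hint (hc i)
  have hher : ∀ (s : ℝ) (b : ι → ℝ), IsHermitian fun v w => (s : ℂ) * H v w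
      - ∑ i, (b i : ℂ) * Hc i v w := by
    intro s b
    refine ⟨fun u v w => ?_, fun a v w => ?_, fun v w => ?_⟩
    · simp only [hL.1.add_left, (hc _).1.add_left, mul_add, Finset.sum_add_distrib]
      ring
    · simp only [hL.1.smul_left, (hc _).1.smul_left, mul_sub, Finset.mul_sum]
      congr 1
      · ring
      · exact Finset.sum_congr rfl fun i _ => by ring
    · simp only [map_sub, map_mul, map_sum, Complex.conj_ofReal, ← hL.1.symm, ← (hc _).1.symm]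
  have him : ∀ (s : ℝ) (b : ι → ℝ) (g : Refls Γ), ((s : ℂ) * H (x g) (y g)
      - ∑ i, (b i : ℂ) * Hc i (x g) (y g)).im = s * tL g - ∑ i, b i * tc i g := by
    intro s b g
    rw [Complex.sub_im, Complex.im_sum, Complex.im_ofReal_mul, htL]
    simp only [Complex.im_ofReal_mul, htc]
  -- the inequalities
  let nn : Unit ⊕ (ι ⊕ Refls Γ) → Fin (n + 1) → ℤ := Sum.elim (fun _ => Fin.cons 1 fun _ => 0)
    (Sum.elim (fun i => Fin.cons (d i) fun k => u i k)
      (fun g => Fin.cons (tL g - ∑ i, d i * tc i g) fun k => -∑ i, u i k * tc i g))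
  let z : Fin (n + 1) → ℝ := Fin.cons 1 q
  have e1 : ∀ y : Fin (n + 1) → ℝ, ∑ j, (nn (Sum.inl ()) j : ℝ) * y j = y 0 := by
    intro y
    simp [nn, Fin.sum_univ_succ]
  have e2 : ∀ (y : Fin (n + 1) → ℝ) (i : ι), ∑ j, (nn (Sum.inr (Sum.inl i)) j : ℝ) * y j
      = y 0 * d i + ∑ k, y (Fin.succ k) * u i k := by
    intro y i
    rw [Fin.sum_univ_succ]
    simp only [nn, Sum.elim_inr, Sum.elim_inl, Fin.cons_zero, Fin.cons_succ]
    rw [mul_comm]
    congr 1
    exact Finset.sum_congr rfl fun i _ => mul_comm _ _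
  have e3 : ∀ (y : Fin (n + 1) → ℝ) (g : Refls Γ),
      ∑ j, (nn (Sum.inr (Sum.inr g)) j : ℝ) * y j
      = y 0 * tL g - ∑ i, (y 0 * d i + ∑ k, y (Fin.succ k) * u i k) * tc i g := by
    intro y g
    rw [Fin.sum_univ_succ]
    simp only [nn, Sum.elim_inr, Fin.cons_zero, Fin.cons_succ]
    push_cast
    simp only [neg_mul, Finset.sum_neg_distrib, Finset.sum_mul, add_mul, Finset.sum_add_distrib,
      sub_mul]
    rw [Finset.sum_comm]
    have h1 : ∑ i, (d i : ℝ) * tc i g * y 0 = ∑ i, y 0 * d i * tc i g :=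
      Finset.sum_congr rfl fun i _ => by ring
    have h2 : ∑ i, ∑ k, (u i k : ℝ) * tc i g * y (Fin.succ k)
        = ∑ i, ∑ k, y (Fin.succ k) * u i k * tc i g :=
      Finset.sum_congr rfl fun i _ => Finset.sum_congr rfl fun k _ => by ring
    rw [h1, h2]
    ring
  have hz : ∀ j, 0 ≤ ∑ i, (nn j i : ℝ) * z i := by
    rintro (⟨⟩ | i | g)
    · rw [e1]
      exact zero_le_one
    · rw [e2]
      have h1 := hβ0 i
      rw [hβ] at h1
      simpa [z] using h1
    · rw [e3]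
      have h1 := (ht _ (hher 1 β)).1 (fun a _ => by simpa using hn a) g
      rw [him] at h1
      simp only [hβ] at h1
      simpa [z] using h1
  obtain ⟨κ, _, r, b, hr, hsum, hb⟩ := cone_decomp nn z hz
  have hne : Nonempty κ := by
    by_contra hne
    rw [not_nonempty_iff] at hne
    have h1 := hsum 0
    simp [z] at h1
  obtain ⟨k⟩ := hne
  have hb0 : 0 < b k 0 := by
    have h1 := (hb k (Sum.inl ())).2 (by rw [e1]; simp [z])
    have h2 : (0 : ℝ) < ∑ i, (nn (Sum.inl ()) i : ℝ) * (b k i : ℝ) := by exact_mod_cast h1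
    rw [e1 fun i => (b k i : ℝ)] at h2
    exact_mod_cast h2
  have hbi : ∀ i, 0 ≤ b k 0 * d i + ∑ l, b k (Fin.succ l) * u i l := by
    intro i
    have h1 := (hb k (Sum.inr (Sum.inl i))).1
    have h2 : (0 : ℝ) ≤ ∑ j, (nn (Sum.inr (Sum.inl i)) j : ℝ) * (b k j : ℝ) := by
      exact_mod_cast h1
    rw [e2 fun i => (b k i : ℝ)] at h2
    exact_mod_cast h2
  have hK : ((b k 0).toNat : ℤ) = b k 0 := Int.toNat_of_nonneg hb0.le
  have hB : ∀ i, ((b k 0 * d i + ∑ l, b k (Fin.succ l) * u i l).toNat : ℤ)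
      = b k 0 * d i + ∑ l, b k (Fin.succ l) * u i l := fun i => Int.toNat_of_nonneg (hbi i)
  refine ⟨(b k 0).toNat, fun i => (b k 0 * d i + ∑ l, b k (Fin.succ l) * u i l).toNat, by omega,
    ⟨fun l => b k (Fin.succ l), fun i => ?_⟩, ?_⟩
  · have h1 := hB i
    simp only [h1, hK]
  · have h1 := (ht _ (hher (((b k 0).toNat : ℕ) : ℝ)
      fun i => (((b k 0 * d i + ∑ l, b k (Fin.succ l) * u i l).toNat : ℕ) : ℝ))).2 fun g => by
        rw [him]
        have h1 := (hb k (Sum.inr (Sum.inr g))).1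
        have h2 : (0 : ℝ) ≤ ∑ j, (nn (Sum.inr (Sum.inr g)) j : ℝ) * (b k j : ℝ) := by
          exact_mod_cast h1
        rw [e3 fun i => (b k i : ℝ)] at h2
        have h3 : (((b k 0).toNat : ℕ) : ℝ) = b k 0 := by exact_mod_cast hK
        have h4 : ∀ i, (((b k 0 * d i + ∑ l, b k (Fin.succ l) * u i l).toNat : ℕ) : ℝ)
            = b k 0 * d i + ∑ l, (b k (Fin.succ l) : ℝ) * u i l := fun i => by
          exact_mod_cast hB i
        rw [h3]
        simp only [h4]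
        exact h2
    intro a ha
    have h2 := h1 a ha
    simpa using h2

/-- The base pair of a multiple. -/
theorem exists_base_pair_mul [FiniteDimensional ℂ V] {u : ι → Fin n → ℤ} {S : Set (Set ι)}
    (hS : IsSmoothFan u S) {c : ι → LineBundle Γ} {m : ℕ} {ρ : V → ℂ} {d : ι → ℤ}
    {L : LineBundle Γ} (T : Finset (ι →₀ ℕ)) (f : (ι →₀ ℕ) → V → ℂ)
    (hf : ∀ α, Differentiable ℂ (f α)) (hT : ∀ α ∈ T, ∃ v, f α v ≠ 0)
    (hcls : ∀ α ∈ T, LinEquiv u (fun i => (α i : ℤ)) d)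
    (hrel : ∀ α ∈ T, ∀ (γ : Γ) (v : V),
      f α ((γ : V ≃ᵃ[ℂ] V) v) * (∏ i, (c i).e γ v ^ α i) * ρ v ^ m
        = (L.e γ v * (LinearMap.det ((γ : V ≃ᵃ[ℂ] V).linear : V →ₗ[ℂ] V) *
          ∏ i, (c i).e γ v) ^ m * ρ ((γ : V ≃ᵃ[ℂ] V) v) ^ m) * f α v)
    (hw : ∀ a : ι → ℕ, {i | a i ≠ 0} ∈ S → ∃ α ∈ T, ∑ i, a i * α i ≤ m * ∑ i, a i)
    {K₀ : ℕ} (hK₀ : 1 ≤ K₀)
    {β : ι → ℕ} (hβ : LinEquiv u (fun i => (β i : ℤ)) (fun i => K₀ * (d i - m))) :
    ∃ K : ℕ, 1 ≤ K ∧ ∃ P : V → ℂ, Differentiable ℂ P ∧ (∃ v, P v ≠ 0) ∧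
      Pool.Agent.TH735.AQ.IsLogPluricanonical (tw (L.pow K₀) c K β) (m * K₀ * K) ρ P := by
  classical
  have hdiv : ∀ α : ι →₀ ℕ,
      Finsupp.mapRange (fun a => a / K₀) (Nat.zero_div K₀) (K₀ • α) = α := by
    intro α
    ext i
    simp only [Finsupp.mapRange_apply, Finsupp.smul_apply, smul_eq_mul]
    exact Nat.mul_div_cancel_left _ hK₀
  obtain ⟨K, hK, P, hP, hP0, hPe⟩ := exists_base_pair₀ (u := u) (S := S) hS (c := c) (m := m * K₀)
    (ρ := ρ) (d := fun i => K₀ * d i) (L := L.pow K₀) (T.image fun α => K₀ • α)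
    (fun α v => f (Finsupp.mapRange (fun a => a / K₀) (Nat.zero_div K₀) α) v ^ K₀)
    (fun α => (hf _).pow _) (fun α hα => by
      obtain ⟨α', hα', rfl⟩ := Finset.mem_image.1 hα
      obtain ⟨v, hv⟩ := hT α' hα'
      exact ⟨v, by rw [hdiv]; exact pow_ne_zero _ hv⟩)
    (fun α hα => by
      obtain ⟨α', hα', rfl⟩ := Finset.mem_image.1 hα
      obtain ⟨p, hp⟩ := hcls α' hα'
      refine ⟨fun k => K₀ * p k, fun i => ?_⟩
      have h1 : (α' i : ℤ) = d i + ∑ k, p k * u i k := hp i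
      have h2 : ((K₀ • α') i : ℤ) = K₀ * α' i := by
        rw [Finsupp.smul_apply, smul_eq_mul, Nat.cast_mul]
      simp only [h2, h1, mul_add, Finset.mul_sum, mul_assoc])
    (fun α hα γ v => by
      obtain ⟨α', hα', rfl⟩ := Finset.mem_image.1 hα
      rw [hdiv]
      have h1 := congrArg (fun t => t ^ K₀) (hrel α' hα' γ v)
      simp only [mul_pow] at h1
      have h2 : ∏ i, (c i).e γ v ^ (K₀ • α') i = (∏ i, (c i).e γ v ^ α' i) ^ K₀ := by
        rw [← Finset.prod_pow]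
        exact Finset.prod_congr rfl fun i _ => by
          rw [Finsupp.smul_apply, smul_eq_mul, ← pow_mul, mul_comm]
      rw [h2]
      change _ = (L.e γ v ^ K₀ * _ * _) * _
      simp only [mul_pow, pow_mul] at h1 ⊢
      exact h1)
    (fun a ha => by
      obtain ⟨α, hα, h⟩ := hw a ha
      refine ⟨_, Finset.mem_image_of_mem _ hα, ?_⟩
      have h1 : ∑ i, a i * (K₀ • α) i = K₀ * ∑ i, a i * α i := by
        rw [Finset.mul_sum]
        exact Finset.sum_congr rfl fun i _ => by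
          rw [Finsupp.smul_apply, smul_eq_mul]
          ring
      rw [h1]
      calc K₀ * ∑ i, a i * α i ≤ K₀ * (m * ∑ i, a i) := Nat.mul_le_mul_left _ h
        _ = m * K₀ * ∑ i, a i := by ring)
    (β := β) (by
      obtain ⟨p, hp⟩ := hβ
      refine ⟨p, fun i => ?_⟩
      rw [hp i]
      push_cast
      ring)
  exact ⟨K, hK, P, hP, hP0, hPe⟩

end Q47.TB
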