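import Pool.Agent.Q47.TB.Psef2

/-!
# Nonvanishing on toric bundles over torus quotients: the theorem
-/

set_option autoImplicit false

namespace Q47.TB

open Pool.Agent.W594.SYZ2 Pool.Agent.W594.SYZ2.TQ Pool.Agent.TH735.AQ MvPolynomial Q47.EB Q47.KN
open Q47.MM (nef_of_section Inv inv_of_chern roots exists_tests Refls nef_of_roots cone_decomp)

variable {V : Type*} [NormedAddCommGroup V] [NormedSpace ℂ V] [FiniteDimensional ℂ V]
  {Γ : Subgroup (V ≃ᵃ[ℂ] V)} {ι : Type*} [Fintype ι] {n : ℕ}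

/-- A section from a generated power on the base. -/
theorem exists_monomial {u : ι → Fin n → ℤ} {c : ι → LineBundle Γ} {L : LineBundle Γ}
    {d : ι → ℤ} {K₀ K E : ℕ} (h1 : 1 ≤ K₀) (h2 : 1 ≤ K) (h3 : 1 ≤ E) {b : ι → ℕ}
    (hb : LinEquiv u (fun i => (b i : ℤ)) (fun i => K₀ * d i))
    (hg : GG ((tw (L.pow K₀) c K b).pow E)) :
    ∃ N : ℕ, 1 ≤ N ∧ ∃ G, IsSection u c (fun i => (N : ℤ) * d i) (fun γ v => L.e γ v ^ N) G ∧
      ∃ v, G v ≠ 0 := by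
  obtain ⟨s, hs, hs0⟩ := hg 0
  have h4 := isSection_monomial hb hs
  refine ⟨K₀ * (K * E), Nat.mul_pos h1 (Nat.mul_pos h2 h3), _, (?_ : IsSection u c _ _
    fun v => monomial (Finsupp.equivFunOnFinite.symm fun i => K * E * b i) (s v)), 0, ?_⟩
  rotate_left
  · exact fun h => hs0 (monomial_eq_zero.1 h)
  · have e1 : (fun i => ((K₀ * (K * E) : ℕ) : ℤ) * d i)
        = fun i => ((K * E : ℕ) : ℤ) * (K₀ * d i) := by
      ext i
      push_cast
      ring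
    have e2 : (fun (γ : Γ) v => L.e γ v ^ (K₀ * (K * E)))
        = fun γ v => (L.pow K₀).e γ v ^ (K * E) := by
      ext γ v
      exact pow_mul _ _ _
    rw [e1, e2]
    exact h4

/-- Nonvanishing. -/
theorem nonvanishing (hΓ : IsTorusQuotient Γ) {ρ : V → ℂ} (hρ : IsRamification Γ ρ)
    {u : ι → Fin n → ℤ} {S : Set (Set ι)} (hS : IsSmoothFan u S)
    {c : ι → LineBundle Γ} {Hc : ι → V → V → ℂ} (hc : ∀ i, IsChernForm (c i) (Hc i))
    {m : ℕ} {d : ι → ℤ} {F : V → MvPolynomial ι ℂ} {L : LineBundle Γ}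
    {H : V → V → ℂ} (hL : IsChernForm L H) (hF : IsLogPluricanonical u c m ρ d F L)
    (T : Finset (ι →₀ ℕ)) (hT : ∀ α ∈ T, ∃ v, coeff α (F v) ≠ 0)
    (hw : ∀ a : ι → ℕ, {i | a i ≠ 0} ∈ S → ∃ α ∈ T, ∑ i, a i * α i ≤ m * ∑ i, a i)
    {β : ι → ℝ} {q : Fin n → ℝ} (hβ0 : ∀ i, 0 ≤ β i)
    (hβ : ∀ i, β i = (d i - m : ℤ) + ∑ k, q k * u i k)
    (hn : IsNefForm fun v w => H v w - ∑ i, (β i : ℂ) * Hc i v w) :
    ∃ N : ℕ, 1 ≤ N ∧ ∃ G, IsSection u c (fun i => (N : ℤ) * (d i - m))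
      (fun γ v => L.e γ v ^ N) G ∧ ∃ v, G v ≠ 0 := by
  obtain ⟨K₀, b, hK₀, hb, hroots⟩ := exists_int hΓ hc hL hβ0 hβ hn
  obtain ⟨K, hK, P, hP, hP0, hPe⟩ := exists_base_pair_mul hS T (fun α v => coeff α (F v)) hF.holo hT
    (fun α hα => by
      obtain ⟨v, hv⟩ := hT α hα
      exact hF.deg v α (mem_support_iff.2 hv))
    (fun α _ γ v => by
      refine coeff_of_eval (fun x => ?_) α
      rw [hF.eq γ v x]
      ring) hw hK₀ (β := b) (by simpa using hb)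
  have hch := chern_tw (chern_pow hL K₀) hc K b
  have hre : ∀ v, ((K : ℂ) * ((K₀ : ℂ) * H v v - ∑ i, (b i : ℂ) * Hc i v v)).re
      = (K : ℝ) * ((K₀ : ℂ) * H v v - ∑ i, (b i : ℂ) * Hc i v v).re := by
    intro v
    have : ((K : ℕ) : ℂ) = ((K : ℝ) : ℂ) := by push_cast; rfl
    rw [this, Complex.re_ofReal_mul]
  have hnef : IsNefForm fun v w => (K : ℂ) * ((K₀ : ℂ) * H v w - ∑ i, (b i : ℂ) * Hc i v w) := by
    refine nef_of_roots hΓ (inv_of_chern hch) (fun x hx => ?_) fun a ha => ?_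
    · obtain ⟨hH, F', hF', hFe⟩ := hch
      exact pair_fixed hΓ hρ hP hP0 hPe hH ⟨hF', hFe⟩ hx
    · rw [hre]
      exact mul_nonneg (Nat.cast_nonneg K) (hroots a ha)
  obtain ⟨hH, F', hF', hFe⟩ := hch
  exact exists_monomial hK₀ hK (expo_pos (Module.finrank ℂ V)) hb
    (gg_of_pair hΓ hH ⟨hF', hFe⟩ hρ hP hP0 hPe hnef)

/-- Nonvanishing over bases without reflections. -/
theorem nonvanishing_no_mirror (hΓ : IsTorusQuotient Γ) {ρ : V → ℂ} (hρ : IsRamification Γ ρ)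
    (hρ0 : ∀ v, ¬ OnMirror Γ v)
    {u : ι → Fin n → ℤ} {S : Set (Set ι)} (hS : IsSmoothFan u S)
    {c : ι → LineBundle Γ} {Hc : ι → V → V → ℂ} (hc : ∀ i, IsChernForm (c i) (Hc i))
    {m : ℕ} {d : ι → ℤ} {F : V → MvPolynomial ι ℂ} {L : LineBundle Γ}
    {H : V → V → ℂ} (hL : IsChernForm L H) (hF : IsLogPluricanonical u c m ρ d F L)
    (T : Finset (ι →₀ ℕ)) (hT : ∀ α ∈ T, ∃ v, coeff α (F v) ≠ 0)
    (hw : ∀ a : ι → ℕ, {i | a i ≠ 0} ∈ S → ∃ α ∈ T, ∑ i, a i * α i ≤ m * ∑ i, a i)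
    {K₀ : ℕ} (hK₀ : 1 ≤ K₀) {b : ι → ℕ}
    (hb : LinEquiv u (fun i => (b i : ℤ)) (fun i => K₀ * (d i - m))) :
    ∃ N : ℕ, 1 ≤ N ∧ ∃ G, IsSection u c (fun i => (N : ℤ) * (d i - m))
      (fun γ v => L.e γ v ^ N) G ∧ ∃ v, G v ≠ 0 := by
  obtain ⟨K, hK, P, hP, hP0, hPe⟩ := exists_base_pair_mul hS T (fun α v => coeff α (F v)) hF.holo hT
    (fun α hα => by
      obtain ⟨v, hv⟩ := hT α hα
      exact hF.deg v α (mem_support_iff.2 hv))
    (fun α _ γ v => by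
      refine coeff_of_eval (fun x => ?_) α
      rw [hF.eq γ v x]
      ring) hw hK₀ (β := b) hb
  have hρ1 : ∀ v, ρ v ≠ 0 := fun v h => hρ0 v ((hρ.zero_iff v).1 h)
  have hn := nef_of_pair hΓ hρ.holo hρ1 (chern_pow hL K₀) hc hK hP hP0 hPe
  exact exists_monomial hK₀ hK (expo_pos (Module.finrank ℂ V)) hb
    (gg_tw hΓ hρ (chern_pow hL K₀) hc hP hP0 hPe hn)

omit [FiniteDimensional ℂ V] in
/-- Effective classes are pseudo-effective. -/
theorem pseff_of_section {u : ι → Fin n → ℤ} {c : ι → LineBundle Γ} {L : LineBundle Γ}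
    {H : V → V → ℂ} [FiniteDimensional ℂ V] (hL : IsChernForm L H) {d : ι → ℤ} {N : ℕ} (hN : 1 ≤ N)
    {G : V → MvPolynomial ι ℂ}
    (hG : IsSection u c (fun i => (N : ℤ) * d i) (fun γ v => L.e γ v ^ N) G)
    (hG0 : ∃ v, G v ≠ 0) : IsPseff u c (fun i => (d i : ℝ)) H := by
  have hNR : (N : ℝ) ≠ 0 := by positivity
  refine ⟨fun _ => fun i => (d i : ℝ), fun _ => H, fun _ => ?_, fun _ => tendsto_const_nhds,
    fun _ _ => tendsto_const_nhds⟩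
  refine ⟨Unit, inferInstance, fun _ => (N : ℝ)⁻¹, fun _ i => N * d i, fun _ => L.pow N,
    fun _ v w => (N : ℂ) * H v w, fun _ _ => 0, fun _ => 0, fun _ => by positivity,
    fun _ => chern_pow hL N, fun _ => ⟨G, hG, hG0⟩, fun v => le_of_eq (by simp), fun i => ?_,
    fun v w => ?_⟩
  · simp only [Finset.univ_unique, Finset.sum_singleton, zero_mul, Finset.sum_const_zero, add_zero]
    push_cast
    field_simp
  · simp only [Finset.univ_unique, Finset.sum_singleton, add_zero]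
    push_cast
    have : (N : ℂ) ≠ 0 := by exact_mod_cast hNR
    field_simp

/-- On the fibre. -/
theorem fibre_of_section {u : ι → Fin n → ℤ} {c : ι → LineBundle Γ} {d : ι → ℤ}
    {e : Γ → V → ℂ} {G : V → MvPolynomial ι ℂ} (hG : IsSection u c d e G) (hG0 : ∃ v, G v ≠ 0) :
    ∃ b : ι → ℕ, LinEquiv u (fun i => (b i : ℤ)) d := by
  obtain ⟨v, hv⟩ := hG0
  obtain ⟨α, hα⟩ := MvPolynomial.support_nonempty.2 hv
  exact ⟨fun i => α i, hG.deg v α hα⟩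

end Q47.TB
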